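import Mathlib

/-! The profile of a strictly increasing map: block scales against cell scales. -/

namespace Pool.Agent.H76.LX

open Finset

lemma ProfA_block_le {n l : ℕ} (hl : 0 < l) (c : ℕ) :
    (univ.filter (fun b : Fin n => b.val / l = c)).card ≤ l := by
  have h : (univ.filter (fun b : Fin n => b.val / l = c)).card ≤ (range l).card := by
    refine Finset.card_le_card_of_injOn (fun b => b.val % l) ?_ ?_
    · intro b _
      exact mem_coe.2 (mem_range.2 (Nat.mod_lt _ hl))
    · intro a ha b hb hab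
      rw [mem_coe, mem_filter] at ha hb
      have hab' : a.val % l = b.val % l := hab
      apply Fin.ext
      have h1 := Nat.div_add_mod a.val l
      have h2 := Nat.div_add_mod b.val l
      rw [ha.2] at h1
      rw [hb.2] at h2
      rw [← h1, ← h2, hab']
  rwa [card_range] at h

lemma ProfA_lt {z D s : ℕ} (hs : s ≤ D) (b : Fin (z ^ D)) {t : ℕ} (ht : t < z ^ s) :
    b.val / z ^ s * z ^ s + t < z ^ D := by
  have h1 : b.val / z ^ s < z ^ (D - s) := by
    apply Nat.div_lt_of_lt_mul
    rw [← pow_add, Nat.add_sub_cancel' hs]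
    exact b.2
  calc b.val / z ^ s * z ^ s + t < b.val / z ^ s * z ^ s + z ^ s := by omega
    _ = (b.val / z ^ s + 1) * z ^ s := by ring
    _ ≤ z ^ (D - s) * z ^ s := Nat.mul_le_mul_right _ h1
    _ = z ^ D := by rw [← pow_add, Nat.sub_add_cancel hs]

lemma ProfA_div {l : ℕ} (c : ℕ) {t : ℕ} (ht : t < l) : (c * l + t) / l = c := by
  rw [Nat.mul_comm, Nat.mul_add_div (by omega), Nat.div_eq_of_lt ht, add_zero]

lemma ProfA_block_ge {z D s : ℕ} (hs : s ≤ D) (b : Fin (z ^ D)) :
    z ^ s ≤ (univ.filter (fun b' : Fin (z ^ D) => b'.val / z ^ s = b.val / z ^ s)).card := by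
  have h : (univ : Finset (Fin (z ^ s))).card ≤
      (univ.filter (fun b' : Fin (z ^ D) => b'.val / z ^ s = b.val / z ^ s)).card := by
    refine Finset.card_le_card_of_injOn (fun t => ⟨_, ProfA_lt hs b t.2⟩) ?_ ?_
    · intro t _
      rw [mem_coe, mem_filter]
      exact ⟨mem_univ _, ProfA_div _ t.2⟩
    · intro t _ t' _ htt
      have h1 := congrArg Fin.val htt
      dsimp only at h1
      exact Fin.ext (by omega)
  rwa [card_univ, Fintype.card_fin] at h

lemma ProfA_bad1 {n z s : ℕ} (hz : 0 < z) (f : Fin n → ℕ) (hf : Monotone f)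
    (B : Finset (Fin n))
    (hB : ∀ b ∈ B, z ^ (s + 2) < (univ.filter (fun b' => f b' = f b)).card ∧
      ∃ b' : Fin n, b'.val / z ^ (s + 1) = b.val / z ^ (s + 1) ∧ f b' ≠ f b) :
    B.card * z ≤ 2 * n := by
  have h1 : B.card = ∑ v ∈ univ.image f, (B.filter (fun b => f b = v)).card :=
    Finset.card_eq_sum_card_fiberwise fun b _ => mem_image_of_mem f (mem_univ b)
  have h2 : (univ : Finset (Fin n)).card =
      ∑ v ∈ univ.image f, (univ.filter (fun b : Fin n => f b = v)).card :=
    Finset.card_eq_sum_card_fiberwise fun b _ => mem_image_of_mem f (mem_univ b)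
  rw [card_univ, Fintype.card_fin] at h2
  calc B.card * z = ∑ v ∈ univ.image f, (B.filter (fun b => f b = v)).card * z := by
        rw [← Finset.sum_mul, ← h1]
    _ ≤ ∑ v ∈ univ.image f, 2 * (univ.filter (fun b : Fin n => f b = v)).card := by
        refine Finset.sum_le_sum fun v _ => ?_
        by_cases he : B.filter (fun b => f b = v) = ∅
        · rw [he, card_empty, zero_mul]
          exact Nat.zero_le _
        obtain ⟨b0, hb0⟩ := Finset.nonempty_iff_ne_empty.2 he
        rw [mem_filter] at hb0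
        have hJ := (hB b0 hb0.1).1
        rw [hb0.2] at hJ
        set J := univ.filter (fun b' : Fin n => f b' = v) with hJdef
        have hne : J.Nonempty := card_pos.1 (by omega)
        have hsub : B.filter (fun b => f b = v) ⊆
            univ.filter (fun b : Fin n => b.val / z ^ (s + 1) =
              (J.min' hne).val / z ^ (s + 1)) ∪
            univ.filter (fun b : Fin n => b.val / z ^ (s + 1) =
              (J.max' hne).val / z ^ (s + 1)) := by
          intro b hb
          rw [mem_filter] at hb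
          obtain ⟨_, b', hbb, hne'⟩ := hB b hb.1
          rw [hb.2] at hne'
          have hbJ : b ∈ J := mem_filter.2 ⟨mem_univ _, hb.2⟩
          rw [mem_union, mem_filter, mem_filter]
          rcases lt_trichotomy b' b with h | h | h
          · left
            refine ⟨mem_univ _, ?_⟩
            have h3 : J.min' hne ≤ b := min'_le _ _ hbJ
            have h4 : b' ≤ J.min' hne := by
              by_contra hcon
              push Not at hcon
              have h5 : f (J.min' hne) = v := (mem_filter.1 (min'_mem J hne)).2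
              have h6 := hf hcon.le
              have h7 := hf h.le
              rw [h5] at h6
              rw [hb.2] at h7
              exact hne' (le_antisymm h7 h6)
            have h8 : b'.val / z ^ (s + 1) ≤ (J.min' hne).val / z ^ (s + 1) :=
              Nat.div_le_div_right (Fin.le_def.1 h4)
            have h9 : (J.min' hne).val / z ^ (s + 1) ≤ b.val / z ^ (s + 1) :=
              Nat.div_le_div_right (Fin.le_def.1 h3)
            omega
          · exact absurd (by rw [h]; exact hb.2) hne'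
          · right
            refine ⟨mem_univ _, ?_⟩
            have h3 : b ≤ J.max' hne := le_max' _ _ hbJ
            have h4 : J.max' hne ≤ b' := by
              by_contra hcon
              push Not at hcon
              have h5 : f (J.max' hne) = v := (mem_filter.1 (max'_mem J hne)).2
              have h6 := hf hcon.le
              have h7 := hf h.le
              rw [h5] at h6
              rw [hb.2] at h7
              exact hne' (le_antisymm h6 h7)
            have h8 : (J.max' hne).val / z ^ (s + 1) ≤ b'.val / z ^ (s + 1) :=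
              Nat.div_le_div_right (Fin.le_def.1 h4)
            have h9 : b.val / z ^ (s + 1) ≤ (J.max' hne).val / z ^ (s + 1) :=
              Nat.div_le_div_right (Fin.le_def.1 h3)
            omega
        have h10 := (card_le_card hsub).trans (card_union_le _ _)
        have h11 := ProfA_block_le (n := n) (pow_pos hz (s + 1))
          ((J.min' hne).val / z ^ (s + 1))
        have h12 := ProfA_block_le (n := n) (pow_pos hz (s + 1))
          ((J.max' hne).val / z ^ (s + 1))
        calc (B.filter (fun b => f b = v)).card * z ≤ (2 * z ^ (s + 1)) * z :=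
              Nat.mul_le_mul_right _ (by omega)
          _ = 2 * z ^ (s + 2) := by ring
          _ ≤ 2 * J.card := by omega
    _ = 2 * n := by rw [← Finset.mul_sum, ← h2]

lemma ProfA_bad2 {n z δ : ℕ} (hz : 0 < z) (f g : Fin n → ℕ) (hfg : ∀ b, g b = f b / z ^ δ)
    (B : Finset (Fin n))
    (hB : ∀ b ∈ B, z ^ (δ + 1) * (univ.filter (fun b' => f b' = f b)).card <
      (univ.filter (fun b' => g b' = g b)).card) :
    B.card * z ≤ n := by
  have h1 : B.card = ∑ v ∈ univ.image g, (B.filter (fun b => g b = v)).card :=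
    Finset.card_eq_sum_card_fiberwise fun b _ => mem_image_of_mem g (mem_univ b)
  have h2 : (univ : Finset (Fin n)).card =
      ∑ v ∈ univ.image g, (univ.filter (fun b : Fin n => g b = v)).card :=
    Finset.card_eq_sum_card_fiberwise fun b _ => mem_image_of_mem g (mem_univ b)
  rw [card_univ, Fintype.card_fin] at h2
  calc B.card * z = ∑ v ∈ univ.image g, (B.filter (fun b => g b = v)).card * z := by
        rw [← Finset.sum_mul, ← h1]
    _ ≤ ∑ v ∈ univ.image g, (univ.filter (fun b : Fin n => g b = v)).card := by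
        refine Finset.sum_le_sum fun v _ => ?_
        set A := B.filter (fun b => g b = v) with hA
        have h3 : A.card = ∑ w ∈ A.image f, (A.filter (fun b => f b = w)).card :=
          Finset.card_eq_sum_card_fiberwise fun b hb => mem_image_of_mem f hb
        have h4 : (A.image f).card ≤ z ^ δ := by
          have h : (A.image f).card ≤ (range (z ^ δ)).card := by
            refine Finset.card_le_card_of_injOn (fun w => w % z ^ δ) ?_ ?_
            · intro w _
              exact mem_coe.2 (mem_range.2 (Nat.mod_lt _ (pow_pos hz δ)))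
            · intro w hw w' hw' hww
              have hww' : w % z ^ δ = w' % z ^ δ := hww
              rw [mem_coe, mem_image] at hw hw'
              obtain ⟨b, hb, rfl⟩ := hw
              obtain ⟨b', hb', rfl⟩ := hw'
              have e1 := (mem_filter.1 hb).2
              have e2 := (mem_filter.1 hb').2
              rw [hfg] at e1 e2
              have h5 := Nat.div_add_mod (f b) (z ^ δ)
              have h6 := Nat.div_add_mod (f b') (z ^ δ)
              rw [e1] at h5
              rw [e2] at h6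
              rw [← h5, ← h6, hww']
          rwa [card_range] at h
        have h5 : A.card * z ^ (δ + 1) ≤
            z ^ δ * (univ.filter (fun b : Fin n => g b = v)).card := by
          calc A.card * z ^ (δ + 1) =
                ∑ w ∈ A.image f, (A.filter (fun b => f b = w)).card * z ^ (δ + 1) := by
                rw [← Finset.sum_mul, ← h3]
            _ ≤ ∑ w ∈ A.image f, (univ.filter (fun b : Fin n => g b = v)).card := by
                refine Finset.sum_le_sum fun w hw => ?_
                obtain ⟨b, hb, rfl⟩ := mem_image.1 hw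
                have hb' := mem_filter.1 hb
                have h6 := hB b hb'.1
                rw [hb'.2] at h6
                have h7 : (A.filter (fun x => f x = f b)).card ≤
                    (univ.filter (fun x : Fin n => f x = f b)).card :=
                  card_le_card (filter_subset_filter _ (subset_univ _))
                refine (Nat.mul_le_mul_right _ h7).trans ?_
                rw [Nat.mul_comm]
                exact h6.le
            _ = (A.image f).card * (univ.filter (fun b : Fin n => g b = v)).card := by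
                rw [Finset.sum_const, smul_eq_mul]
            _ ≤ z ^ δ * (univ.filter (fun b : Fin n => g b = v)).card :=
                Nat.mul_le_mul_right _ h4
        have h8 : z ^ δ * (A.card * z) ≤
            z ^ δ * (univ.filter (fun b : Fin n => g b = v)).card := by
          calc z ^ δ * (A.card * z) = A.card * z ^ (δ + 1) := by ring
            _ ≤ _ := h5
        exact Nat.le_of_mul_le_mul_left h8 (pow_pos hz δ)
    _ = n := h2.symm

lemma ProfA_pigeon {α β : Type*} [DecidableEq β] [Fintype β] [Nonempty β] (S : Finset α)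
    (Φ : α → β) {m : ℕ} (hm : m ≤ 2 * S.card) :
    ∃ y : β, m ≤ (S.filter (fun b => Φ b = y)).card * (2 * Fintype.card β) := by
  by_contra hcon
  push Not at hcon
  have h1 : S.card = ∑ y ∈ (univ : Finset β), (S.filter (fun b => Φ b = y)).card :=
    Finset.card_eq_sum_card_fiberwise fun b _ => mem_univ _
  have h2 : ∑ y ∈ (univ : Finset β), (S.filter (fun b => Φ b = y)).card * (2 * Fintype.card β) <
      ∑ _y ∈ (univ : Finset β), m :=
    Finset.sum_lt_sum_of_nonempty univ_nonempty fun y _ => hcon y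
  rw [← Finset.sum_mul, ← h1, Finset.sum_const, card_univ, smul_eq_mul] at h2
  have h3 : Fintype.card β * m ≤ Fintype.card β * (2 * S.card) := Nat.mul_le_mul_left _ hm
  have h4 : S.card * (2 * Fintype.card β) = Fintype.card β * (2 * S.card) := by ring
  omega

/-- the scale of a column -/
def ProfA_P {z D G : ℕ} (δ : ℕ) (ψ : Fin (z ^ D) → Fin (z ^ G)) (k : ℕ) (b : Fin (z ^ D)) : ℕ :=
  Nat.findGreatest (fun s => ∀ b' : Fin (z ^ D), b'.val / z ^ s = b.val / z ^ s →
    (ψ b').val / z ^ (δ * k) = (ψ b).val / z ^ (δ * k)) D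

lemma ProfA_P_le {z D G : ℕ} (δ : ℕ) (ψ : Fin (z ^ D) → Fin (z ^ G)) (k : ℕ)
    (b : Fin (z ^ D)) : ProfA_P δ ψ k b ≤ D := Nat.findGreatest_le D

lemma ProfA_P_spec {z D G : ℕ} (δ : ℕ) (ψ : Fin (z ^ D) → Fin (z ^ G)) (k : ℕ)
    (b b' : Fin (z ^ D)) (h : b'.val / z ^ ProfA_P δ ψ k b = b.val / z ^ ProfA_P δ ψ k b) :
    (ψ b').val / z ^ (δ * k) = (ψ b).val / z ^ (δ * k) := by
  have h0 : ∀ b' : Fin (z ^ D), b'.val / z ^ 0 = b.val / z ^ 0 →
      (ψ b').val / z ^ (δ * k) = (ψ b).val / z ^ (δ * k) := by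
    intro b' hb
    rw [pow_zero, Nat.div_one, Nat.div_one] at hb
    rw [Fin.ext hb]
  exact Nat.findGreatest_spec (P := fun s => ∀ b' : Fin (z ^ D),
    b'.val / z ^ s = b.val / z ^ s →
      (ψ b').val / z ^ (δ * k) = (ψ b).val / z ^ (δ * k)) (Nat.zero_le D) h0 b' h

lemma ProfA_P_ge {z D G : ℕ} (δ : ℕ) (ψ : Fin (z ^ D) → Fin (z ^ G)) (k : ℕ)
    (b : Fin (z ^ D)) {s : ℕ} (hs : s ≤ D) (h : ∀ b' : Fin (z ^ D),
      b'.val / z ^ s = b.val / z ^ s → (ψ b').val / z ^ (δ * k) = (ψ b).val / z ^ (δ * k)) :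
    s ≤ ProfA_P δ ψ k b :=
  Nat.le_findGreatest hs h

lemma ProfA_P_succ {z D G : ℕ} (δ : ℕ) (ψ : Fin (z ^ D) → Fin (z ^ G)) (k : ℕ)
    (b : Fin (z ^ D)) (h : ProfA_P δ ψ k b < D) : ∃ b' : Fin (z ^ D),
      b'.val / z ^ (ProfA_P δ ψ k b + 1) = b.val / z ^ (ProfA_P δ ψ k b + 1) ∧
      (ψ b').val / z ^ (δ * k) ≠ (ψ b).val / z ^ (δ * k) := by
  by_contra hcon
  push Not at hcon
  have h1 := ProfA_P_ge δ ψ k b (s := ProfA_P δ ψ k b + 1) h hcon
  omega

lemma ProfA_next {z δ k x : ℕ} : x / z ^ (δ * (k + 1)) = x / z ^ (δ * k) / z ^ δ := by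
  rw [Nat.div_div_eq_div_mul, ← pow_add]
  congr 2

lemma ProfA_mono {z D G : ℕ} (δ : ℕ) (ψ : Fin (z ^ D) → Fin (z ^ G)) (k : ℕ)
    (b : Fin (z ^ D)) : ProfA_P δ ψ k b ≤ ProfA_P δ ψ (k + 1) b := by
  refine ProfA_P_ge δ ψ (k + 1) b (ProfA_P_le δ ψ k b) fun b' hb => ?_
  rw [ProfA_next, ProfA_next, ProfA_P_spec δ ψ k b b' hb]

lemma ProfA_zero {z D G : ℕ} (δ : ℕ) (hz : 2 ≤ z) (ψ : Fin (z ^ D) → Fin (z ^ G))
    (hψ : StrictMono ψ) (b : Fin (z ^ D)) : ProfA_P δ ψ 0 b = 0 := by
  by_contra hcon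
  set s := ProfA_P δ ψ 0 b with hs
  have hsD : s ≤ D := ProfA_P_le δ ψ 0 b
  have hz2 : 2 ≤ z ^ s := le_trans hz (Nat.le_self_pow hcon z)
  have key : ∀ t : ℕ, ∀ ht : t < z ^ s,
      (⟨_, ProfA_lt hsD b ht⟩ : Fin (z ^ D)) = b := by
    intro t ht
    have h1 := ProfA_P_spec δ ψ 0 b ⟨_, ProfA_lt hsD b ht⟩ (ProfA_div _ ht)
    rw [mul_zero, pow_zero, Nat.div_one, Nat.div_one] at h1
    exact hψ.injective (Fin.ext h1)
  have h1 := congrArg Fin.val (key 0 (by omega))
  have h2 := congrArg Fin.val (key 1 (by omega))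
  dsimp only at h1 h2
  omega

lemma ProfA_last {z D G Λ : ℕ} (δ : ℕ) (hz : 2 ≤ z) (hG : G ≤ δ * Λ)
    (ψ : Fin (z ^ D) → Fin (z ^ G)) (b : Fin (z ^ D)) : ProfA_P δ ψ Λ b = D := by
  refine le_antisymm (ProfA_P_le δ ψ Λ b) (ProfA_P_ge δ ψ Λ b le_rfl fun b' _ => ?_)
  have h : ∀ x : Fin (z ^ G), x.val / z ^ (δ * Λ) = 0 := fun x =>
    Nat.div_eq_of_lt (lt_of_lt_of_le x.2 (Nat.pow_le_pow_right (by omega) hG))
  rw [h, h]

lemma ProfA_biUnion {ι α : Type*} [DecidableEq α] (I : Finset ι) (F : ι → Finset α)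
    {z m : ℕ} (h : ∀ i ∈ I, (F i).card * z ≤ m) : (I.biUnion F).card * z ≤ I.card * m := by
  calc (I.biUnion F).card * z ≤ (∑ i ∈ I, (F i).card) * z :=
        Nat.mul_le_mul_right _ Finset.card_biUnion_le
    _ = ∑ i ∈ I, (F i).card * z := by rw [Finset.sum_mul]
    _ ≤ ∑ _i ∈ I, m := Finset.sum_le_sum h
    _ = I.card * m := by rw [Finset.sum_const, smul_eq_mul]

theorem profileA {z δ Λ D G : ℕ} (hz : 2 * (2 * D * (Λ + 1) + Λ) + 2 ≤ z) (hG : G ≤ δ * Λ)
    (ψ : Fin (z ^ D) → Fin (z ^ G)) (hψ : StrictMono ψ) :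
    ∃ (Pr : ℕ → ℕ) (TT : Finset (Fin (z ^ D))),
      z ^ D ≤ TT.card * (2 * (D + 1) ^ (Λ + 1)) ∧ Pr 0 = 0 ∧ Pr Λ = D ∧
      (∀ k < Λ, Pr k ≤ Pr (k + 1) ∧ Pr (k + 1) ≤ Pr k + δ + 3) ∧
      ∀ b ∈ TT, ∀ k ≤ Λ,
        (∀ b' : Fin (z ^ D), b'.val / z ^ (Pr k) = b.val / z ^ (Pr k) →
          (ψ b').val / z ^ (δ * k) = (ψ b).val / z ^ (δ * k)) ∧
        ((univ.filter (fun b' : Fin (z ^ D) =>
          (ψ b').val / z ^ (δ * k) = (ψ b).val / z ^ (δ * k))).card ≤ z ^ (Pr k + 2)) := by
  have hz2 : 2 ≤ z := by omega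
  have hz0 : 0 < z := by omega
  have hmono : ∀ k : ℕ, Monotone (fun b : Fin (z ^ D) => (ψ b).val / z ^ (δ * k)) := by
    intro k a b hab
    exact Nat.div_le_div_right (Fin.le_def.1 (hψ.monotone hab))
  set J : ℕ → Fin (z ^ D) → Finset (Fin (z ^ D)) := fun k b =>
    univ.filter (fun b' : Fin (z ^ D) =>
      (ψ b').val / z ^ (δ * k) = (ψ b).val / z ^ (δ * k)) with hJ
  set P : ℕ → Fin (z ^ D) → ℕ := fun k b => ProfA_P δ ψ k b with hP
  set B1 : Finset (Fin (z ^ D)) := (range (Λ + 1) ×ˢ range D).biUnion fun q =>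
    univ.filter (fun b => P q.1 b = q.2 ∧ z ^ (q.2 + 2) < (J q.1 b).card) with hB1
  set B2 : Finset (Fin (z ^ D)) := (range Λ).biUnion fun k =>
    univ.filter (fun b => z ^ (δ + 1) * (J k b).card < (J (k + 1) b).card) with hB2
  have hc1 : B1.card * z ≤ ((Λ + 1) * D) * (2 * z ^ D) := by
    have h := ProfA_biUnion (range (Λ + 1) ×ˢ range D) (fun q =>
      univ.filter (fun b => P q.1 b = q.2 ∧ z ^ (q.2 + 2) < (J q.1 b).card))
      (z := z) (m := 2 * z ^ D) ?_
    · rwa [card_product, card_range, card_range] at h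
    · rintro ⟨k, s⟩ hq
      rw [mem_product, mem_range, mem_range] at hq
      refine ProfA_bad1 (s := s) hz0 (fun b : Fin (z ^ D) => (ψ b).val / z ^ (δ * k))
        (hmono k) _ ?_
      intro b hb
      obtain ⟨-, hb1, hb2⟩ := mem_filter.1 hb
      have hb1' : ProfA_P δ ψ k b = s := hb1
      refine ⟨hb2, ?_⟩
      have h3 := ProfA_P_succ δ ψ k b (by rw [hb1']; exact hq.2)
      rw [hb1'] at h3
      exact h3
  have hc2 : B2.card * z ≤ Λ * z ^ D := by
    have h := ProfA_biUnion (range Λ) (fun k =>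
      univ.filter (fun b => z ^ (δ + 1) * (J k b).card < (J (k + 1) b).card))
      (z := z) (m := z ^ D) ?_
    · rwa [card_range] at h
    · intro k _
      refine ProfA_bad2 (δ := δ) hz0 (fun b : Fin (z ^ D) => (ψ b).val / z ^ (δ * k))
        (fun b : Fin (z ^ D) => (ψ b).val / z ^ (δ * (k + 1))) (fun b => ProfA_next) _ ?_
      intro b hb
      exact (mem_filter.1 hb).2
  set Bad := B1 ∪ B2 with hBad
  have hbad : 2 * Bad.card ≤ z ^ D := by
    have h1 : Bad.card ≤ B1.card + B2.card := card_union_le _ _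
    have h2 : Bad.card * z ≤ (2 * D * (Λ + 1) + Λ) * z ^ D := by
      calc Bad.card * z ≤ (B1.card + B2.card) * z := Nat.mul_le_mul_right _ h1
        _ = B1.card * z + B2.card * z := by ring
        _ ≤ ((Λ + 1) * D) * (2 * z ^ D) + Λ * z ^ D := add_le_add hc1 hc2
        _ = (2 * D * (Λ + 1) + Λ) * z ^ D := by ring
    have h3 : (2 * Bad.card) * z ≤ z ^ D * z := by
      calc (2 * Bad.card) * z = 2 * (Bad.card * z) := by ring
        _ ≤ 2 * ((2 * D * (Λ + 1) + Λ) * z ^ D) := Nat.mul_le_mul_left _ h2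
        _ = (2 * (2 * D * (Λ + 1) + Λ)) * z ^ D := by ring
        _ ≤ z * z ^ D := Nat.mul_le_mul_right _ (by omega)
        _ = z ^ D * z := mul_comm _ _
    exact Nat.le_of_mul_le_mul_right h3 hz0
  set GG : Finset (Fin (z ^ D)) := univ \ Bad with hGG
  have hgg : z ^ D ≤ 2 * GG.card := by
    have h1 : GG.card = z ^ D - Bad.card := by
      rw [hGG, Finset.card_sdiff_of_subset (subset_univ _), card_univ, Fintype.card_fin]
    omega
  have hg1 : ∀ b ∈ GG, ∀ k ≤ Λ, (J k b).card ≤ z ^ (P k b + 2) := by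
    intro b hb k hk
    by_contra hcon
    push Not at hcon
    have hbB : b ∉ Bad := (mem_sdiff.1 hb).2
    have hPD : P k b ≤ D := ProfA_P_le δ ψ k b
    rcases Nat.lt_or_ge (P k b) D with h | h
    · apply hbB
      rw [hBad, mem_union]
      left
      rw [hB1, mem_biUnion]
      refine ⟨(k, P k b), ?_, ?_⟩
      · rw [mem_product, mem_range, mem_range]
        exact ⟨by omega, h⟩
      · rw [mem_filter]
        exact ⟨mem_univ _, rfl, hcon⟩
    · have h1 : (J k b).card ≤ z ^ D := by
        have h2 := card_le_univ (J k b)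
        rwa [Fintype.card_fin] at h2
      have h2 : z ^ D ≤ z ^ (P k b + 2) := Nat.pow_le_pow_right hz0 (by omega)
      omega
  have hg2 : ∀ b ∈ GG, ∀ k < Λ, (J (k + 1) b).card ≤ z ^ (δ + 1) * (J k b).card := by
    intro b hb k hk
    by_contra hcon
    push Not at hcon
    have hbB : b ∉ Bad := (mem_sdiff.1 hb).2
    apply hbB
    rw [hBad, mem_union]
    right
    rw [hB2, mem_biUnion]
    refine ⟨k, mem_range.2 hk, ?_⟩
    rw [mem_filter]
    exact ⟨mem_univ _, hcon⟩
  have hg3 : ∀ b ∈ GG, ∀ k < Λ, P (k + 1) b ≤ P k b + δ + 3 := by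
    intro b hb k hk
    have h1 : z ^ P (k + 1) b ≤ (J (k + 1) b).card := by
      refine (ProfA_block_ge (ProfA_P_le δ ψ (k + 1) b) b).trans (card_le_card ?_)
      intro b' hb'
      rw [mem_filter] at hb'
      rw [mem_filter]
      exact ⟨mem_univ _, ProfA_P_spec δ ψ (k + 1) b b' hb'.2⟩
    have h2 : z ^ P (k + 1) b ≤ z ^ (P k b + δ + 3) := by
      calc z ^ P (k + 1) b ≤ (J (k + 1) b).card := h1
        _ ≤ z ^ (δ + 1) * (J k b).card := hg2 b hb k hk
        _ ≤ z ^ (δ + 1) * z ^ (P k b + 2) := Nat.mul_le_mul_left _ (hg1 b hb k hk.le)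
        _ = z ^ (P k b + δ + 3) := by rw [← pow_add]; congr 1; omega
    exact (Nat.pow_le_pow_iff_right (by omega)).1 h2
  obtain ⟨y, hy⟩ := ProfA_pigeon (β := Fin (Λ + 1) → Fin (D + 1)) GG
    (fun b k => ⟨P k.val b, Nat.lt_succ_of_le (ProfA_P_le δ ψ k.val b)⟩) hgg
  rw [Fintype.card_fun, Fintype.card_fin, Fintype.card_fin] at hy
  set TT := GG.filter (fun b => (fun k : Fin (Λ + 1) =>
    (⟨P k.val b, Nat.lt_succ_of_le (ProfA_P_le δ ψ k.val b)⟩ : Fin (D + 1))) = y) with hTT
  have hT : ∀ b ∈ TT, b ∈ GG ∧ ∀ k (hk : k < Λ + 1), P k b = (y ⟨k, hk⟩).val := by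
    intro b hb
    rw [hTT, mem_filter] at hb
    refine ⟨hb.1, fun k hk => ?_⟩
    rw [← hb.2]
  have hne : TT.Nonempty := by
    rw [← card_pos]
    by_contra hcon
    have h1 : TT.card = 0 := by omega
    rw [h1, zero_mul] at hy
    have h2 : 0 < z ^ D := pow_pos hz0 D
    omega
  obtain ⟨b0, hb0⟩ := hne
  obtain ⟨hb0G, hb0P⟩ := hT b0 hb0
  have hPr : ∀ k (hk : k < Λ + 1),
      (if h : k < Λ + 1 then (y ⟨k, h⟩).val else D) = P k b0 := by
    intro k hk
    rw [dif_pos hk, hb0P k hk]
  refine ⟨fun k => if h : k < Λ + 1 then (y ⟨k, h⟩).val else D, TT, hy, ?_, ?_, ?_, ?_⟩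
  · show (if h : 0 < Λ + 1 then (y ⟨0, h⟩).val else D) = 0
    rw [hPr 0 (by omega)]
    exact ProfA_zero δ hz2 ψ hψ b0
  · show (if h : Λ < Λ + 1 then (y ⟨Λ, h⟩).val else D) = D
    rw [hPr Λ (by omega)]
    exact ProfA_last δ hz2 hG ψ b0
  · intro k hk
    show (if h : k < Λ + 1 then (y ⟨k, h⟩).val else D) ≤
        (if h : k + 1 < Λ + 1 then (y ⟨k + 1, h⟩).val else D) ∧
      (if h : k + 1 < Λ + 1 then (y ⟨k + 1, h⟩).val else D) ≤
        (if h : k < Λ + 1 then (y ⟨k, h⟩).val else D) + δ + 3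
    rw [hPr k (by omega), hPr (k + 1) (by omega)]
    exact ⟨ProfA_mono δ ψ k b0, hg3 b0 hb0G k hk⟩
  · intro b hb k hk
    obtain ⟨hbG, hbP⟩ := hT b hb
    have e : (fun k => if h : k < Λ + 1 then (y ⟨k, h⟩).val else D) k = P k b := by
      show (if h : k < Λ + 1 then (y ⟨k, h⟩).val else D) = P k b
      rw [dif_pos (by omega), hbP k (by omega)]
    rw [e]
    exact ⟨fun b' hb' => ProfA_P_spec δ ψ k b b' hb', hg1 b hbG k hk⟩

end Pool.Agent.H76.LX
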