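import Pool.Agent.H76.LX.Defs

/-! A good row with a matched pattern can only be placed after a repair. -/

namespace Pool.Agent.H76.LX

open Finset Pool.Agent.H46.SR Pool.Agent.H46.TS

namespace Par

variable (P : Par)

/-- the flips of level below `i` at scales above `k2` -/
noncomputable def detH (ω : P.Sp) (i k2 : ℕ) (x y : Fin P.N) : ZMod 2 :=
  ∑ k ∈ univ.filter (fun k : Fin P.La => P.lv k.val < i ∧ k2 < k.val), P.fl ω k x y

/-- the flips of level below `i` at scales at most `k1` -/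
noncomputable def detE (ω : P.Sp) (i k1 : ℕ) (x y : Fin P.N) : ZMod 2 :=
  ∑ k ∈ univ.filter (fun k : Fin P.La => P.lv k.val < i ∧ k.val ≤ k1), P.fl ω k x y

theorem det_split {ψ : Fin (P.z ^ P.D) → Fin P.N} {i : ℕ} (F : P.Prof ψ i) (ω : P.Sp)
    (x y : Fin P.N) :
    P.col ω x y = P.hi ω i F.k3 x y + P.f3 ω F.k3 x y + P.detH ω i F.k2 x y
      + P.detE ω i F.k1 x y := by
  classical
  unfold col hi f3 detH detE
  simp only [Finset.sum_filter]
  rw [← Finset.sum_add_distrib, ← Finset.sum_add_distrib, ← Finset.sum_add_distrib]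
  apply Finset.sum_congr rfl
  intro k _
  have h13 := F.h13
  have h32 := F.h32
  have hlev3 := F.hlev3
  by_cases h1 : i ≤ P.lv k.val
  · by_cases h2 : k.val = F.k3
    · rw [if_neg (by tauto), if_pos h2, if_neg (by omega), if_neg (by omega)]
      ring
    · rw [if_pos ⟨h1, h2⟩, if_neg h2, if_neg (by omega), if_neg (by omega)]
      ring
  · have h2 : k.val ≠ F.k3 := by
      intro h
      rw [h, hlev3] at h1
      exact h1 le_rfl
    by_cases h3 : F.k2 < k.val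
    · rw [if_neg (by tauto), if_neg h2, if_pos ⟨by omega, h3⟩, if_neg (by omega)]
      ring
    · have h4 : k.val ≤ F.k1 := by
        by_contra h5
        exact h1 (F.hlev k.val (by omega) (by omega))
      rw [if_neg (by tauto), if_neg h2, if_neg (by omega), if_pos ⟨by omega, h4⟩]
      ring

theorem det_x0 {i β : ℕ} {x : Fin P.N} (hx : x.val / P.T i = β) {j : ℕ} (hj : i ≤ j) :
    dv (P.T j) x = dv (P.T j) (P.x0 i β) := by
  have hle : β * P.T i ≤ x.val := by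
    rw [← hx]
    exact Nat.div_mul_le_self _ _
  have hx0 : (P.x0 i β).val = β * P.T i := by
    show β * P.T i % P.N = β * P.T i
    exact Nat.mod_eq_of_lt (lt_of_le_of_lt hle x.2)
  obtain ⟨s, hs⟩ := P.T_dvd hj
  apply Fin.ext
  show x.val / P.T j = (P.x0 i β).val / P.T j
  rw [hx0, hs, ← Nat.div_div_eq_div_mul, ← Nat.div_div_eq_div_mul, hx,
    Nat.mul_div_cancel _ (P.T_pos i)]

theorem det_fl {i β : ℕ} {x : Fin P.N} (hx : x.val / P.T i = β) (ω : P.Sp) (k : Fin P.La)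
    (y : Fin P.N) (hk : i ≤ P.lv k.val) :
    P.fl ω k x y = P.fl ω k (P.x0 i β) y := by
  unfold fl
  rw [P.det_x0 hx hk]

theorem det_block {ψ : Fin (P.z ^ P.D) → Fin P.N} {i : ℕ} (F : P.Prof ψ i) {r : P.Rr}
    (hr : Gd F r) (c : Fin 3 × Fin P.q) :
    (P.lf r c).val / P.z ^ F.s2 = r.2.1.1.val / P.z ^ F.s2 := by
  show lfN r c / P.z ^ F.s2 = _
  unfold lfN
  rw [hr.g0, hr.g0']
  obtain ⟨s, hs⟩ := Nat.exists_eq_add_of_lt F.hs
  have h2 : P.z ^ F.s2 = P.z ^ F.s1 * P.z ^ (s + 1) := by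
    rw [← pow_add, hs]
    congr 1
  have h3 : ∀ X Y : ℕ, pl (P.z ^ F.s1) X Y / P.z ^ F.s2 = X / P.z ^ F.s2 := by
    intro X Y
    rw [h2, ← Nat.div_div_eq_div_mul, ← Nat.div_div_eq_div_mul, pl_div (pow_pos P.zpos _)]
  rw [h3, pl_div (pow_pos P.zpos _)]

theorem det_H {ψ : Fin (P.z ^ P.D) → Fin P.N} {i : ℕ} (F : P.Prof ψ i) {r : P.Rr}
    (hr : Gd F r) (ω : P.Sp) (x : Fin P.N) (c c' : Fin 3 × Fin P.q) :
    P.detH ω i F.k2 x (ψ (P.lf r c)) = P.detH ω i F.k2 x (ψ (P.lf r c')) := by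
  unfold detH
  apply Finset.sum_congr rfl
  intro k hk
  rw [Finset.mem_filter] at hk
  have h1 : (ψ (P.lf r c')).val / P.U (F.k2 + 1) = (ψ (P.lf r c)).val / P.U (F.k2 + 1) :=
    F.hb2 _ (hr.gT c) _ (by rw [P.det_block F hr, P.det_block F hr])
  obtain ⟨s, hs⟩ := P.U_dvd (show F.k2 + 1 ≤ k.val from hk.2.2)
  have h2 : dv (P.U k.val) (ψ (P.lf r c)) = dv (P.U k.val) (ψ (P.lf r c')) := by
    apply Fin.ext
    show (ψ (P.lf r c)).val / P.U k.val = (ψ (P.lf r c')).val / P.U k.val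
    rw [hs, ← Nat.div_div_eq_div_mul, ← Nat.div_div_eq_div_mul, h1]
  unfold fl
  rw [h2]

theorem det_E {i k1 : ℕ} {ω : P.Sp} {x y : Fin P.N} (h : P.detE ω i k1 x y = 1) :
    ∃ k : Fin P.La, k.val ≤ k1 ∧ P.lv k.val < i ∧ P.fl ω k x y = 1 := by
  unfold detE at h
  have h1 : (∑ k ∈ univ.filter (fun k : Fin P.La => P.lv k.val < i ∧ k.val ≤ k1),
      P.fl ω k x y) ≠ 0 := by
    rw [h]
    decide
  obtain ⟨k, hk, hne⟩ := Finset.exists_ne_zero_of_sum_ne_zero h1
  rw [Finset.mem_filter] at hk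
  refine ⟨k, hk.2.2, hk.2.1, ?_⟩
  unfold fl at hne ⊢
  split_ifs at hne ⊢ with h2
  · rfl
  · exact absurd rfl hne

theorem det_z2 (a : ZMod 2) : a = 0 ∨ a = 1 := by
  revert a
  decide

theorem det_za (t h e : ZMod 2) (h1 : t + h = 0) (h2 : 1 + h + e = t) : e = 1 := by
  revert t h e
  decide

theorem det_zb (t h e : ZMod 2) (h1 : t + h = 1) (h2 : 0 + h + e = t) : e = 1 := by
  revert t h e
  decide

theorem det {ψ : Fin (P.z ^ P.D) → Fin P.N} {i : ℕ} (F : P.Prof ψ i) {r : P.Rr} (hr : Gd F r)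
    {β : ℕ} {ω : P.Sp} (hM : P.Mat ω ψ i F.k3 β r) (hP : P.Plc ω ψ i β r) :
    P.Rep ω ψ i F.k1 β r := by
  classical
  obtain ⟨x, hx, t, ht⟩ := hP
  have hq := P.hq
  set c0 : Fin 3 × Fin P.q := (0, ⟨0, hq⟩) with hc0
  set o : Fin 3 × Fin P.q → ZMod 2 := fun c =>
    P.hi ω i F.k3 (P.x0 i β) (ψ (P.lf r c)) + P.f3 ω F.k3 (P.x0 i β) (ψ (P.lf r c)) with ho
  set h0 : ZMod 2 := P.detH ω i F.k2 x (ψ (P.lf r c0)) with hh0
  have hhi : ∀ y, P.hi ω i F.k3 x y = P.hi ω i F.k3 (P.x0 i β) y := by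
    intro y
    unfold hi
    apply Finset.sum_congr rfl
    intro k hk
    rw [Finset.mem_filter] at hk
    exact P.det_fl hx ω k y hk.2.1
  have hf3 : ∀ y, P.f3 ω F.k3 x y = P.f3 ω F.k3 (P.x0 i β) y := by
    intro y
    unfold f3
    apply Finset.sum_congr rfl
    intro k hk
    rw [Finset.mem_filter] at hk
    apply P.det_fl hx ω k y
    rw [hk.2, F.hlev3]
  have hkey : ∀ c, o c + h0 + P.detE ω i F.k1 x (ψ (P.lf r c)) = t := by
    intro c
    rw [← ht c, P.det_split F, hhi, hf3, P.det_H F hr ω x c c0]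
  have hM1 : P.q ≤ (univ.filter (fun c : Fin 3 × Fin P.q => o c = 1)).card := hM.1
  have hM2 : (univ.filter (fun c : Fin 3 × Fin P.q => o c = 1)).card ≤ 2 * P.q := hM.2
  have hcard : (univ : Finset (Fin 3 × Fin P.q)).card = 3 * P.q := by
    rw [Finset.card_univ, Fintype.card_prod, Fintype.card_fin, Fintype.card_fin]
  have hsum := Finset.card_filter_add_card_filter_not (s := (univ : Finset (Fin 3 × Fin P.q)))
    (fun c => o c = 1)
  have hex : ∃ W : Finset (Fin 3 × Fin P.q), P.q ≤ W.card ∧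
      ∀ c ∈ W, P.detE ω i F.k1 x (ψ (P.lf r c)) = 1 := by
    rcases det_z2 (t + h0) with hz | hz
    · refine ⟨univ.filter (fun c => o c = 1), hM1, ?_⟩
      intro c hc
      rw [Finset.mem_filter] at hc
      have h1 := hkey c
      rw [hc.2] at h1
      exact det_za _ _ _ hz h1
    · refine ⟨univ.filter (fun c => ¬ o c = 1), by omega, ?_⟩
      intro c hc
      rw [Finset.mem_filter] at hc
      have h1 := hkey c
      have h2 : o c = 0 := by
        rcases det_z2 (o c) with h | h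
        · exact h
        · exact absurd h hc.2
      rw [h2] at h1
      exact det_zb _ _ _ hz h1
  obtain ⟨W, hW, hWe⟩ := hex
  obtain ⟨S, hSW, hSc⟩ := Finset.exists_subset_card_eq hW
  exact ⟨x, hx, S, hSc, fun c hc => P.det_E (hWe c (hSW hc))⟩

end Par

end Pool.Agent.H76.LX

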