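import Pool.Agent.H76.LX.Pat
import Pool.Agent.H46.TS.Group

/-! The probability that three distinct coordinates match a pattern. -/

namespace Pool.Agent.H76.LX

open Finset Pool.Agent.H46.SR Pool.Agent.H46.TS

theorem matP_z2 (x : ZMod 2) : x = 0 ∨ x = 1 := by
  revert x; decide

/-- one coordinate -/
theorem matP_one {Q : ℕ} (hQ : 2 ≤ Q) (e : ZMod 2) :
    av (fun b : Fin Q => ind ((if b.val = 0 then (1 : ZMod 2) else 0) = e)) =
      if e = 1 then 1 / (Q : ℝ) else 1 - 1 / (Q : ℝ) := by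
  have h0 : av (fun b : Fin Q => ind (b.val = 0)) = 1 / (Q : ℝ) := av_ind_eq (by omega)
  haveI : Nonempty (Fin Q) := ⟨⟨0, by omega⟩⟩
  rcases matP_z2 e with h | h
  · subst h
    rw [if_neg (by decide)]
    have h1 : av (fun b : Fin Q => ind ((if b.val = 0 then (1 : ZMod 2) else 0) = 0)) +
        av (fun b : Fin Q => ind (b.val = 0)) = 1 := by
      rw [← av_add]
      rw [← av_const (Ω := Fin Q) (1 : ℝ)]
      apply av_congr
      intro b
      by_cases hb : b.val = 0
      · rw [if_pos hb, ind_pos hb, ind_neg (by decide)]; ring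
      · rw [if_neg hb, ind_neg hb, ind_pos rfl]; ring
    rw [h0] at h1
    linarith
  · subst h
    rw [if_pos rfl, ← h0]
    apply av_congr
    intro b
    by_cases hb : b.val = 0
    · rw [if_pos hb, ind_pos hb, ind_pos rfl]
    · rw [if_neg hb, ind_neg hb, ind_neg (by decide)]

/-- three distinct coordinates, one prescribed pattern with at most one flip -/
theorem av_three {ι : Type*} [Fintype ι] [DecidableEq ι] {Q : ℕ} (hQ : 2 ≤ Q) (σ : Fin 3 → ι)
    (hσ : Function.Injective σ) (f : Fin 3 → ZMod 2) (hf : ∀ j j', f j = 1 → f j' = 1 → j = j') :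
    1 / (4 * (Q : ℝ)) ≤ av (fun ω : ι → Fin Q =>
      ind (∀ j, (if (ω (σ j)).val = 0 then (1 : ZMod 2) else 0) = f j)) := by
  haveI : Nonempty (Fin Q) := ⟨⟨0, by omega⟩⟩
  have h1 : av (fun ω : ι → Fin Q =>
      ind (∀ j, (if (ω (σ j)).val = 0 then (1 : ZMod 2) else 0) = f j)) =
      ∏ j : Fin 3, (if f j = 1 then 1 / (Q : ℝ) else 1 - 1 / (Q : ℝ)) := by
    rw [← Finset.prod_congr rfl (fun j _ => matP_one hQ (f j))]
    rw [← av_coords σ hσ (fun j (b : Fin Q) =>
      ind ((if b.val = 0 then (1 : ZMod 2) else 0) = f j))]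
    apply av_congr
    intro ω
    exact ind_forall _
  rw [h1]
  have hQ' : (2 : ℝ) ≤ (Q : ℝ) := by exact_mod_cast hQ
  set x : ℝ := 1 / (Q : ℝ) with hx
  have hx0 : 0 ≤ x := by positivity
  have hx1 : x ≤ 1 / 2 := by
    rw [hx]
    exact one_div_le_one_div_of_le (by norm_num) hQ'
  have h4 : 1 / (4 * (Q : ℝ)) = x / 4 := by
    rw [hx]
    field_simp
  rw [h4, Fin.prod_univ_three]
  have hy : 1 / 2 ≤ 1 - x := by linarith
  have hyy : 1 / 4 ≤ (1 - x) * (1 - x) := by nlinarith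
  have hyyy : 1 / 8 ≤ (1 - x) * (1 - x) * (1 - x) := by nlinarith
  by_cases a0 : f 0 = 1
  · have a1 : ¬ f 1 = 1 := fun h => absurd (hf 0 1 a0 h) (by decide)
    have a2 : ¬ f 2 = 1 := fun h => absurd (hf 0 2 a0 h) (by decide)
    rw [if_pos a0, if_neg a1, if_neg a2]
    nlinarith
  · by_cases a1 : f 1 = 1
    · have a2 : ¬ f 2 = 1 := fun h => absurd (hf 1 2 a1 h) (by decide)
      rw [if_neg a0, if_pos a1, if_neg a2]
      nlinarith
    · by_cases a2 : f 2 = 1
      · rw [if_neg a0, if_neg a1, if_pos a2]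
        nlinarith
      · rw [if_neg a0, if_neg a1, if_neg a2]
        linarith

theorem av_match {ι : Type*} [Fintype ι] [DecidableEq ι] {q Q : ℕ} (hQ : 2 ≤ Q) (σ : Fin 3 → ι)
    (hσ : Function.Injective σ) (a : Fin 3 × Fin q → ZMod 2) :
    1 / (4 * (Q : ℝ)) ≤ av (fun ω : ι → Fin Q => ind (
      q ≤ (univ.filter (fun c : Fin 3 × Fin q =>
        a c + (if (ω (σ c.1)).val = 0 then (1 : ZMod 2) else 0) = 1)).card ∧
      (univ.filter (fun c : Fin 3 × Fin q =>
        a c + (if (ω (σ c.1)).val = 0 then (1 : ZMod 2) else 0) = 1)).card ≤ 2 * q)) := by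
  obtain ⟨f, hf, h1, h2⟩ := pattern a
  refine (av_three hQ σ hσ f hf).trans (av_mono ?_)
  intro ω
  apply ind_mono
  intro h
  simp only [h]
  exact ⟨h1, h2⟩

end Pool.Agent.H76.LX

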