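import Pool.Agent.H76.LX.CfD
import Pool.Agent.H76.LX.MatP

/-! Matching the pattern: dependence on three coordinates, probability. -/

namespace Pool.Agent.H76.LX

open Finset Pool.Agent.H46.SR Pool.Agent.H46.TS

namespace Par

variable (P : Par)

theorem matchp_div {a b l m : ℕ} (hd : l ∣ m) (h : a / l = b / l) : a / m = b / m := by
  obtain ⟨q, rfl⟩ := hd
  rw [← Nat.div_div_eq_div_mul, ← Nat.div_div_eq_div_mul, h]

theorem matchp_dv {n l : ℕ} (x y : Fin n) (h : x.val / l = y.val / l) : dv l x = dv l y := by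
  apply Fin.ext
  exact h

theorem card_Cf {ψ : Fin (P.z ^ P.D) → Fin P.N} {i : ℕ} (F : P.Prof ψ i) (β : ℕ) (r : P.Rr) :
    (Cf F β r).card ≤ 3 := by
  unfold Cf
  refine le_trans card_image_le ?_
  simp

/-- all leaves of a class of a good row have the same coordinate of scale `k3` -/
theorem cf_class {ψ : Fin (P.z ^ P.D) → Fin P.N} {i : ℕ} (F : P.Prof ψ i) {r : P.Rr}
    (hr : Gd F r) (β : ℕ) (j : Fin 3) (l l' : Fin P.q) :
    cf F β (P.lf r (j, l)) = cf F β (P.lf r (j, l')) := by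
  have h1 : (P.lf r (j, l')).val / P.z ^ F.s1 = (P.lf r (j, l)).val / P.z ^ F.s1 := by
    unfold lf lfN
    simp only
    rw [hr.g0, pl_div (pow_pos P.zpos _), pl_div (pow_pos P.zpos _)]
  have h2 := F.hb1 _ (hr.gT (j, l)) _ h1
  have h3 : (ψ (P.lf r (j, l'))).val / P.U F.k3 = (ψ (P.lf r (j, l))).val / P.U F.k3 :=
    matchp_div (P.U_dvd (by have := F.h13; omega)) h2
  unfold cf
  rw [matchp_dv _ _ h3]

/-- different classes of a good row have different coordinates of scale `k3` -/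
theorem cf_inj {ψ : Fin (P.z ^ P.D) → Fin P.N} {i : ℕ} (F : P.Prof ψ i) {r : P.Rr}
    (hr : Gd F r) (β : ℕ) :
    Function.Injective (fun j : Fin 3 => cf F β (P.lf r (j, ⟨0, P.hq⟩))) := by
  intro j j' h
  by_contra hne
  have h1 : dv (P.U F.k3) (ψ (P.lf r (j, ⟨0, P.hq⟩))) =
      dv (P.U F.k3) (ψ (P.lf r (j', ⟨0, P.hq⟩))) := by
    have := congrArg (fun c : P.Co => c.2.2) h
    exact this
  have h2 : (ψ (P.lf r (j, ⟨0, P.hq⟩))).val / P.U F.k3 =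
      (ψ (P.lf r (j', ⟨0, P.hq⟩))).val / P.U F.k3 := congrArg Fin.val h1
  exact hr.g3 j j' _ _ hne (matchp_div (P.U_dvd F.h32) h2)

theorem matchp_hi {ψ : Fin (P.z ^ P.D) → Fin P.N} {i : ℕ} (F : P.Prof ψ i) (β : ℕ)
    (ω w : P.Sp) (x y : Fin P.N) :
    P.hi (mix (D3 F β) ω w) i F.k3 x y = P.hi ω i F.k3 x y := by
  unfold hi
  apply Finset.sum_congr rfl
  intro k hk
  rw [mem_filter] at hk
  unfold fl
  rw [mix_not_mem]
  intro hmem
  exact hk.2.2 hmem.1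

theorem matchp_f3 {ψ : Fin (P.z ^ P.D) → Fin P.N} {i : ℕ} (F : P.Prof ψ i) (β : ℕ)
    (ω w : P.Sp) (b : Fin (P.z ^ P.D)) :
    P.f3 (mix (D3 F β) ω w) F.k3 (P.x0 i β) (ψ b) =
      if (w (cf F β b)).val = 0 then (1 : ZMod 2) else 0 := by
  have hk : F.k3 < P.La := lt_of_le_of_lt F.h32 F.h2
  unfold f3
  have h1 : univ.filter (fun k : Fin P.La => k.val = F.k3) = {(⟨F.k3, hk⟩ : Fin P.La)} := by
    ext k
    rw [mem_filter, mem_singleton]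
    constructor
    · intro h
      exact Fin.ext h.2
    · intro h
      exact ⟨mem_univ _, by rw [h]⟩
  rw [h1, Finset.sum_singleton]
  unfold fl
  have h2 : ((⟨F.k3, hk⟩ : Fin P.La), dv (P.T (P.lv F.k3)) (P.x0 i β), dv (P.U F.k3) (ψ b)) ∈
      D3 F β := ⟨rfl, rfl⟩
  simp only
  rw [mix_mem h2]
  rfl

theorem matchp_val {ψ : Fin (P.z ^ P.D) → Fin P.N} {i : ℕ} (F : P.Prof ψ i) {r : P.Rr}
    (hr : Gd F r) (β : ℕ) (ω w : P.Sp) (c : Fin 3 × Fin P.q) :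
    P.hi (mix (D3 F β) ω w) i F.k3 (P.x0 i β) (ψ (P.lf r c)) +
      P.f3 (mix (D3 F β) ω w) F.k3 (P.x0 i β) (ψ (P.lf r c)) =
    P.hi ω i F.k3 (P.x0 i β) (ψ (P.lf r c)) +
      (if (w (cf F β (P.lf r (c.1, ⟨0, P.hq⟩)))).val = 0 then (1 : ZMod 2) else 0) := by
  rw [matchp_hi, matchp_f3]
  have h := P.cf_class F hr β c.1 c.2 ⟨0, P.hq⟩
  have h' : cf F β (P.lf r c) = cf F β (P.lf r (c.1, ⟨0, P.hq⟩)) := h
  rw [h']

theorem mat_dep {ψ : Fin (P.z ^ P.D) → Fin P.N} {i : ℕ} (F : P.Prof ψ i) {r : P.Rr}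
    (hr : Gd F r) (β : ℕ) (ω w w' : P.Sp) (h : ∀ c ∈ Cf F β r, w c = w' c) :
    P.Mat (mix (D3 F β) ω w) ψ i F.k3 β r ↔ P.Mat (mix (D3 F β) ω w') ψ i F.k3 β r := by
  have h1 : ∀ c : Fin 3 × Fin P.q,
      P.hi (mix (D3 F β) ω w) i F.k3 (P.x0 i β) (ψ (P.lf r c)) +
        P.f3 (mix (D3 F β) ω w) F.k3 (P.x0 i β) (ψ (P.lf r c)) =
      P.hi (mix (D3 F β) ω w') i F.k3 (P.x0 i β) (ψ (P.lf r c)) +
        P.f3 (mix (D3 F β) ω w') F.k3 (P.x0 i β) (ψ (P.lf r c)) := by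
    intro c
    rw [P.matchp_val F hr, P.matchp_val F hr,
      h _ (mem_image_of_mem (fun j : Fin 3 => cf F β (P.lf r (j, ⟨0, P.hq⟩))) (mem_univ c.1))]
  unfold Mat
  simp only [h1]

theorem av_mat {ψ : Fin (P.z ^ P.D) → Fin P.N} {i : ℕ} (F : P.Prof ψ i) {r : P.Rr}
    (hr : Gd F r) (β : ℕ) (ω : P.Sp) :
    1 / (4 * (P.Q : ℝ)) ≤ av (fun w : P.Sp => ind (P.Mat (mix (D3 F β) ω w) ψ i F.k3 β r)) := by
  have hQ : 2 ≤ P.Q := by
    unfold Q
    calc 2 ≤ P.z := P.hz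
      _ = P.z ^ 1 := (pow_one _).symm
      _ ≤ P.z ^ P.τ := Nat.pow_le_pow_right P.zpos P.hτ
  refine le_trans (av_match hQ (fun j : Fin 3 => cf F β (P.lf r (j, ⟨0, P.hq⟩)))
    (P.cf_inj F hr β) (fun c => P.hi ω i F.k3 (P.x0 i β) (ψ (P.lf r c)))) ?_
  apply av_mono
  intro w
  apply ind_mono
  intro hw
  unfold Mat
  simp only [P.matchp_val F hr]
  exact hw

end Par

end Pool.Agent.H76.LX
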