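import Pool.Agent.H46.TS.Group

/-! Revealing the rows one by one. -/

namespace Pool.Agent.H76.LX

open Finset Pool.Agent.H46.SR Pool.Agent.H46.TS

theorem seq_comm {X Y : Type*} [Fintype X] [Fintype Y] (f : X → Y → ℝ) :
    av (fun a => av (fun b => f a b)) = av (fun b => av (fun a => f a b)) := by
  unfold av
  rw [← Finset.sum_div, ← Finset.sum_div, Finset.sum_comm, div_div, div_div, mul_comm]

theorem seq_mix {ι B : Type*} [DecidableEq ι] (S C : Finset ι) (w0 w w1 : ι → B)
    (hd : Disjoint C S) :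
    mix ((S : Set ι)ᶜ) w0 (mix (C : Set ι) w w1) =
      mix (((S ∪ C : Finset ι) : Set ι)ᶜ) (mix (C : Set ι) w0 w1) w := by
  funext i
  by_cases h1 : i ∈ C
  · have h2 : i ∉ S := Finset.disjoint_left.mp hd h1
    rw [mix_mem (show i ∈ ((S : Set ι)ᶜ) by simpa using h2),
      mix_mem (show i ∈ (C : Set ι) by simpa using h1),
      mix_not_mem (show i ∉ (((S ∪ C : Finset ι) : Set ι)ᶜ) by simp [h1]),
      mix_mem (show i ∈ (C : Set ι) by simpa using h1)]
  · by_cases h2 : i ∈ S
    · rw [mix_not_mem (show i ∉ ((S : Set ι)ᶜ) by simp [h2]),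
        mix_not_mem (show i ∉ (((S ∪ C : Finset ι) : Set ι)ᶜ) by simp [h2]),
        mix_not_mem (show i ∉ (C : Set ι) by simpa using h1)]
    · rw [mix_mem (show i ∈ ((S : Set ι)ᶜ) by simpa using h2),
        mix_not_mem (show i ∉ (C : Set ι) by simpa using h1),
        mix_mem (show i ∈ (((S ∪ C : Finset ι) : Set ι)ᶜ) by simp [h1, h2])]

theorem seq_aux {R ι B : Type*} [Fintype R] [Nonempty R] [Fintype ι] [DecidableEq ι] [Fintype B]
    [Nonempty B] (Gd : R → Prop) (C : R → Finset ι) (A : R → (ι → B) → Prop) {π c : ℝ} {x : ℕ}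
    (hπ0 : 0 ≤ π) (hπ1 : π ≤ 1) (hc0 : 0 ≤ c) (hc1 : c ≤ 1) (hC : ∀ r, (C r).card ≤ 3)
    (hdep : ∀ r, Gd r → ∀ ω ω' : ι → B, (∀ i ∈ C r, ω i = ω' i) → (A r ω ↔ A r ω'))
    (hA : ∀ r, Gd r → π ≤ av (fun ω : ι → B => ind (A r ω)))
    (hG : ∀ S : Finset ι, S.card ≤ 3 * x → c ≤ av (fun r => ind (Gd r ∧ Disjoint (C r) S))) :
    ∀ y : ℕ, ∀ S : Finset ι, S.card + 3 * y ≤ 3 * x → ∀ w0 : ι → B,
    av (fun p : (Fin y → R) × (ι → B) =>
      ind (∀ a, ¬ (Gd (p.1 a) ∧ A (p.1 a) (mix ((S : Set ι)ᶜ) w0 p.2)))) ≤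
      (1 - c * π) ^ y := by
  have hcp : c * π ≤ 1 := by nlinarith
  have hbase : 0 ≤ 1 - c * π := by linarith
  intro y
  induction y with
  | zero =>
    intro S _ w0
    rw [pow_zero]
    exact (av_mono (fun _ => ind_le_one _)).trans (av_const 1).le
  | succ y ih =>
    intro S hS w0
    have hK : 0 ≤ (1 - c * π) ^ y := pow_nonneg hbase _
    -- split off the first row
    have e1 : av (fun p : (Fin (y + 1) → R) × (ι → B) =>
        ind (∀ a, ¬ (Gd (p.1 a) ∧ A (p.1 a) (mix ((S : Set ι)ᶜ) w0 p.2)))) =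
        av (fun r : R => av (fun rows : Fin y → R => av (fun w : ι → B =>
          ind (¬ (Gd r ∧ A r (mix ((S : Set ι)ᶜ) w0 w)) ∧
            ∀ a, ¬ (Gd (rows a) ∧ A (rows a) (mix ((S : Set ι)ᶜ) w0 w)))))) := by
      rw [av_prod]
      rw [← av_equiv (Fin.consEquiv (fun _ : Fin (y + 1) => R))]
      rw [av_prod]
      apply av_congr
      intro r
      apply av_congr
      intro rows
      apply av_congr
      intro w
      congr 1
      apply propext
      rw [Fin.forall_fin_succ]
      simp only [Fin.consEquiv_apply, Fin.cons_zero, Fin.cons_succ]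
    rw [e1]
    have key : ∀ r : R, av (fun rows : Fin y → R => av (fun w : ι → B =>
          ind (¬ (Gd r ∧ A r (mix ((S : Set ι)ᶜ) w0 w)) ∧
            ∀ a, ¬ (Gd (rows a) ∧ A (rows a) (mix ((S : Set ι)ᶜ) w0 w))))) ≤
        (1 - ind (Gd r ∧ Disjoint (C r) S) * π) * (1 - c * π) ^ y := by
      intro r
      by_cases hr : Gd r ∧ Disjoint (C r) S
      · rw [ind_pos hr, one_mul]
        obtain ⟨hg, hd⟩ := hr
        -- for fixed rows
        have e2 : ∀ rows : Fin y → R, av (fun w : ι → B =>
            ind (¬ (Gd r ∧ A r (mix ((S : Set ι)ᶜ) w0 w)) ∧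
              ∀ a, ¬ (Gd (rows a) ∧ A (rows a) (mix ((S : Set ι)ᶜ) w0 w)))) =
            av (fun w1 : ι → B => av (fun w : ι → B => ind (¬ A r w1) *
              ind (∀ a, ¬ (Gd (rows a) ∧ A (rows a)
                (mix (((S ∪ C r : Finset ι) : Set ι)ᶜ) (mix (C r : Set ι) w0 w1) w))))) := by
          intro rows
          rw [av_mix (C r : Set ι), seq_comm]
          apply av_congr
          intro w1
          apply av_congr
          intro w
          rw [← ind_and]
          congr 1
          apply propext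
          rw [seq_mix S (C r) w0 w w1 hd]
          have e3 : A r (mix (((S ∪ C r : Finset ι) : Set ι)ᶜ) (mix (C r : Set ι) w0 w1) w) ↔
              A r w1 := by
            apply hdep r hg
            intro i hi
            rw [mix_not_mem (show i ∉ (((S ∪ C r : Finset ι) : Set ι)ᶜ) by simp [hi]),
              mix_mem (show i ∈ (C r : Set ι) by simpa using hi)]
          rw [e3]
          constructor
          · rintro ⟨h1, h2⟩
            exact ⟨fun h => h1 ⟨hg, h⟩, h2⟩
          · rintro ⟨h1, h2⟩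
            exact ⟨fun h => h1 h.2, h2⟩
        simp only [e2]
        rw [seq_comm]
        have e4 : ∀ w1 : ι → B, av (fun rows : Fin y → R => av (fun w : ι → B => ind (¬ A r w1) *
              ind (∀ a, ¬ (Gd (rows a) ∧ A (rows a)
                (mix (((S ∪ C r : Finset ι) : Set ι)ᶜ) (mix (C r : Set ι) w0 w1) w))))) ≤
            ind (¬ A r w1) * (1 - c * π) ^ y := by
          intro w1
          have h3 := ih (S ∪ C r) (by
            have h4 := Finset.card_union_le S (C r)
            have h5 := hC r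
            omega) (mix (C r : Set ι) w0 w1)
          rw [av_prod] at h3
          simp only [av_mul_left]
          exact mul_le_mul_of_nonneg_left h3 (ind_nonneg _)
        refine (av_mono e4).trans ?_
        rw [av_mul_right]
        apply mul_le_mul_of_nonneg_right _ hK
        have h6 : av (fun w1 : ι → B => ind (¬ A r w1)) = 1 - av (fun w1 : ι → B => ind (A r w1)) := by
          have h7 : ∀ w1 : ι → B, ind (¬ A r w1) = 1 + (-1) * ind (A r w1) := by
            intro w1
            rw [ind_not]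
            ring
          rw [av_congr h7, av_add, av_const, av_mul_left]
          ring
        rw [h6]
        have := hA r hg
        linarith
      · rw [ind_neg hr, zero_mul, sub_zero, one_mul]
        have h3 := ih S (by omega) w0
        rw [av_prod] at h3
        refine le_trans ?_ h3
        apply av_mono
        intro rows
        apply av_mono
        intro w
        exact ind_mono (fun h => h.2)
    refine (av_mono key).trans ?_
    rw [av_mul_right, pow_succ']
    apply mul_le_mul_of_nonneg_right _ hK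
    have h8 : ∀ r : R, 1 - ind (Gd r ∧ Disjoint (C r) S) * π =
        1 + (-π) * ind (Gd r ∧ Disjoint (C r) S) := by
      intro r
      ring
    rw [av_congr h8, av_add, av_const, av_mul_left]
    have h9 := hG S (by omega)
    nlinarith

theorem seq {R ι B : Type*} [Fintype R] [Nonempty R] [Fintype ι] [DecidableEq ι] [Fintype B]
    [Nonempty B] (Gd : R → Prop) (C : R → Finset ι) (A : R → (ι → B) → Prop) {π c : ℝ} {x : ℕ}
    (hπ0 : 0 ≤ π) (hπ1 : π ≤ 1) (hc0 : 0 ≤ c) (hc1 : c ≤ 1) (hC : ∀ r, (C r).card ≤ 3)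
    (hdep : ∀ r, Gd r → ∀ ω ω' : ι → B, (∀ i ∈ C r, ω i = ω' i) → (A r ω ↔ A r ω'))
    (hA : ∀ r, Gd r → π ≤ av (fun ω : ι → B => ind (A r ω)))
    (hG : ∀ S : Finset ι, S.card ≤ 3 * x → c ≤ av (fun r => ind (Gd r ∧ Disjoint (C r) S))) :
    av (fun p : (Fin x → R) × (ι → B) => ind (∀ a, ¬ (Gd (p.1 a) ∧ A (p.1 a) p.2))) ≤
      (1 - c * π) ^ x := by
  have h := seq_aux Gd C A hπ0 hπ1 hc0 hc1 hC hdep hA hG x ∅ (by simp)
    (fun _ => Classical.arbitrary B)
  have h1 : ∀ w : ι → B, mix (((∅ : Finset ι) : Set ι)ᶜ) (fun _ => Classical.arbitrary B) w = w := by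
    intro w
    funext i
    exact mix_mem (by simp)
  simp only [h1] at h
  exact h

end Pool.Agent.H76.LX
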