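import Pool.Agent.H76.LX.Defs

/-! Definitions for the revealing argument: the three coordinates of a row. -/

namespace Pool.Agent.H76.LX

open Finset Pool.Agent.H46.SR Pool.Agent.H46.TS

namespace Par

variable {P : Par}

/-- the coordinate of scale `k3` of the class `j` -/
noncomputable def cf {ψ : Fin (P.z ^ P.D) → Fin P.N} {i : ℕ} (F : P.Prof ψ i) (β : ℕ) (b : Fin (P.z ^ P.D)) :
    P.Co :=
  (⟨F.k3, lt_of_le_of_lt F.h32 F.h2⟩, dv (P.T (P.lv F.k3)) (P.x0 i β), dv (P.U F.k3) (ψ b))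

/-- the three coordinates of a row -/
noncomputable def Cf {ψ : Fin (P.z ^ P.D) → Fin P.N} {i : ℕ} (F : P.Prof ψ i) (β : ℕ) (r : P.Rr) :
    Finset P.Co :=
  univ.image (fun j : Fin 3 => cf F β (P.lf r (j, ⟨0, P.hq⟩)))

/-- the coordinates of scale `k3` of the time cell `β` -/
noncomputable def D3 {ψ : Fin (P.z ^ P.D) → Fin P.N} {i : ℕ} (F : P.Prof ψ i) (β : ℕ) : Set P.Co :=
  {c | c.1.val = F.k3 ∧ c.2.1 = dv (P.T (P.lv F.k3)) (P.x0 i β)}

/-- the constant of the tuple lemma -/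
noncomputable def cst (P : Par) : ℝ :=
  (1 / (2 * ((P.D : ℝ) + 1) ^ (P.La + 1))) ^ (3 * P.q) / ((P.D : ℝ) + 1) ^ 2 -
    (9 * (P.q : ℝ) ^ 2 + 9 * P.q) / P.z

end Par

end Pool.Agent.H76.LX
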