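import Mathlib

/-! Counting rows: a strictly increasing map must have many crowded cells at some level. -/

namespace Pool.Agent.H76.LX

open Finset

/-- the points of the cell `g` for the cell length `t` -/
def countR {n : ℕ} (φ : Fin n → ℕ) (t g : ℕ) : Finset (Fin n) := univ.filter (fun a => φ a / t = g)

lemma countR_mem {n : ℕ} {φ : Fin n → ℕ} {t g : ℕ} {a : Fin n} : a ∈ countR φ t g ↔ φ a / t = g := by
  simp [countR]

/-- a heavy cell contains a full aligned block -/
lemma count_block {n nb x t : ℕ} (hx : 1 ≤ x) (hn : n = nb * x) (φ : Fin n → ℕ)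
    (hφ : StrictMono φ) (g : ℕ) (hg : 2 * x ≤ (countR φ t g).card) :
    ∃ f, f < nb ∧ ∀ a : Fin n, a.val / x = f → φ a / t = g := by
  have hne : (countR φ t g).Nonempty := by
    rw [← card_pos]; omega
  obtain ⟨a0, h0m, h0⟩ : ∃ a0 ∈ countR φ t g, ∀ a ∈ countR φ t g, a0 ≤ a :=
    ⟨_, min'_mem _ hne, fun a ha => min'_le _ _ ha⟩
  obtain ⟨a1, h1m, h1⟩ : ∃ a1 ∈ countR φ t g, ∀ a ∈ countR φ t g, a ≤ a1 :=
    ⟨_, max'_mem _ hne, fun a ha => le_max' _ _ ha⟩
  have hsub : countR φ t g ⊆ Finset.Icc a0 a1 := fun a ha => mem_Icc.2 ⟨h0 a ha, h1 a ha⟩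
  have hc := card_le_card hsub
  rw [Fin.card_Icc] at hc
  have e0 := countR_mem.1 h0m
  have e1 := countR_mem.1 h1m
  have h2 : (a0.val + x - 1) / x * x ≤ a0.val + x - 1 := Nat.div_mul_le_self _ _
  have h3 : a0.val + x - 1 < ((a0.val + x - 1) / x + 1) * x := by
    have := Nat.lt_div_mul_add (a := a0.val + x - 1) (b := x) (by omega)
    rw [add_mul, one_mul]; exact this
  rw [add_mul, one_mul] at h3
  refine ⟨(a0.val + x - 1) / x, ?_, ?_⟩
  · have h4 := a1.2
    by_contra hcon
    push Not at hcon
    have h5 : nb * x ≤ (a0.val + x - 1) / x * x := Nat.mul_le_mul_right _ hcon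
    omega
  · intro a ha
    have h4 : a.val / x * x ≤ a.val := Nat.div_mul_le_self _ _
    have h5 : a.val < a.val / x * x + x := Nat.lt_div_mul_add (by omega)
    rw [ha] at h4 h5
    have h6 : a0 ≤ a := by
      rw [Fin.le_def]; omega
    have h7 : a ≤ a1 := by
      rw [Fin.le_def]; omega
    have h8 := Nat.div_le_div_right (c := t) (hφ.monotone h6)
    have h9 := Nat.div_le_div_right (c := t) (hφ.monotone h7)
    omega

/-- at most `v` heavy cells -/
lemma count_heavy {n nb x v t : ℕ} (hx : 1 ≤ x) (hn : n = nb * x) (φ : Fin n → ℕ)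
    (hφ : StrictMono φ)
    (H : ¬ ∃ (f : Fin v → ℕ) (g : Fin v → ℕ), StrictMono f ∧ StrictMono g ∧
      (∀ l, f l < nb) ∧ ∀ l, ∀ a : Fin n, a.val / x = f l → φ a / t = g l)
    (S : Finset ℕ) (hS : ∀ g ∈ S, 2 * x ≤ (countR φ t g).card) : S.card ≤ v := by
  by_contra hcon
  push Not at hcon
  apply H
  obtain ⟨S', hS', hc⟩ := Finset.exists_subset_card_eq hcon.le
  have hb : ∀ l : Fin v, ∃ f, f < nb ∧ ∀ a : Fin n, a.val / x = f → φ a / t = S'.orderEmbOfFin hc l :=
    fun l => count_block hx hn φ hφ _ (hS _ (hS' (Finset.orderEmbOfFin_mem _ _ _)))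
  choose f hf1 hf2 using hb
  refine ⟨f, fun l => S'.orderEmbOfFin hc l, ?_, (S'.orderEmbOfFin hc).strictMono, hf1, hf2⟩
  intro l l' hl
  have hg := (S'.orderEmbOfFin hc).strictMono hl
  by_contra hlt
  push Not at hlt
  have hx0 : 0 < x := by omega
  have hlt1 : f l * x < n := by
    rw [hn]; exact Nat.mul_lt_mul_of_pos_right (hf1 l) hx0
  have hlt2 : f l' * x < n := by
    rw [hn]; exact Nat.mul_lt_mul_of_pos_right (hf1 l') hx0
  have h1 := hf2 l ⟨f l * x, hlt1⟩ (Nat.mul_div_cancel _ hx0)
  have h2 := hf2 l' ⟨f l' * x, hlt2⟩ (Nat.mul_div_cancel _ hx0)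
  have h3 : (⟨f l' * x, hlt2⟩ : Fin n) ≤ ⟨f l * x, hlt1⟩ := by
    rw [Fin.le_def]; exact Nat.mul_le_mul_right _ hlt
  have h4 := Nat.div_le_div_right (c := t) (hφ.monotone h3)
  rw [h1, h2] at h4
  exact absurd hg (not_lt.2 h4)

/-- the number of points in heavy cells -/
def countW {n : ℕ} (φ : Fin n → ℕ) (x t : ℕ) : Finset (Fin n) :=
  univ.filter (fun a => 2 * x ≤ (countR φ t (φ a / t)).card)

theorem count {n nb x v L w K : ℕ} (T : ℕ → ℕ) (hx : 1 ≤ x) (hn : n = nb * x)
    (hT0 : 0 < T 0) (hw : 0 < w) (hT : ∀ i, T (i + 1) = T i * w) (hL : 1 ≤ L)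
    (φ : Fin n → ℕ) (hφ : StrictMono φ) (hK : ∀ a, φ a < K * T (L - 1))
    (H : ∀ i < L, ¬ ∃ (f : Fin v → ℕ) (g : Fin v → ℕ), StrictMono f ∧ StrictMono g ∧
      (∀ l, f l < nb) ∧ ∀ l, ∀ a : Fin n, a.val / x = f l → φ a / T i = g l) :
    n ≤ 2 * x * K + (L - 1) * (v * w * (2 * x)) + v * T 0 := by
  have hTp : ∀ i, 0 < T i := by
    intro i
    induction i with
    | zero => exact hT0
    | succ i ih => rw [hT]; exact Nat.mul_pos ih hw
  -- heavy cells
  have hH : ∀ i < L, ((countW φ x (T i)).image (fun a => φ a / T i)).card ≤ v := by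
    intro i hi
    apply count_heavy hx hn φ hφ (H i hi)
    intro g hg
    obtain ⟨a, ha, rfl⟩ := mem_image.1 hg
    exact (mem_filter.1 ha).2
  -- level 0
  have hW0 : (countW φ x (T 0)).card ≤ v * T 0 := by
    have h1 : (countW φ x (T 0)).card ≤
        T 0 * ((countW φ x (T 0)).image (fun a => φ a / T 0)).card := by
      apply Finset.card_le_mul_card_image
      intro g _
      have h2 : (filter (fun a => φ a / T 0 = g) (countW φ x (T 0))).card ≤
          (Finset.Ico (g * T 0) (g * T 0 + T 0)).card := by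
        apply Finset.card_le_card_of_injOn φ
        · intro a ha
          have h3 := (mem_filter.1 ha).2
          have h4 := Nat.div_mul_le_self (φ a) (T 0)
          have h5 : φ a < φ a / T 0 * T 0 + T 0 := Nat.lt_div_mul_add hT0
          rw [h3] at h4 h5
          simp only [coe_Ico, Set.mem_Ico]
          exact ⟨h4, h5⟩
        · exact hφ.injective.injOn
      simpa using h2
    have h2 := hH 0 (by omega)
    calc _ ≤ _ := h1
      _ ≤ T 0 * v := Nat.mul_le_mul_left _ h2
      _ = v * T 0 := mul_comm _ _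
  -- step
  have hstep : ∀ i, i + 1 < L → (countW φ x (T (i + 1))).card ≤
      (countW φ x (T i)).card + v * w * (2 * x) := by
    intro i hi
    have h1 : (countW φ x (T (i + 1))).card ≤ (countW φ x (T i)).card +
        ((countW φ x (T (i + 1))).filter (fun a => ¬ 2 * x ≤ (countR φ (T i) (φ a / T i)).card)).card := by
      rw [← card_filter_add_card_filter_not (s := countW φ x (T (i + 1)))
        (fun a => 2 * x ≤ (countR φ (T i) (φ a / T i)).card)]
      apply Nat.add_le_add_right
      apply card_le_card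
      intro a ha
      exact mem_filter.2 ⟨mem_univ _, (mem_filter.1 ha).2⟩
    refine h1.trans (Nat.add_le_add_left ?_ _)
    set B := (countW φ x (T (i + 1))).filter (fun a => ¬ 2 * x ≤ (countR φ (T i) (φ a / T i)).card) with hB
    have h2 : B.card ≤ (2 * x) * (B.image (fun a => φ a / T i)).card := by
      apply Finset.card_le_mul_card_image
      intro g hg
      obtain ⟨a, ha, rfl⟩ := mem_image.1 hg
      have h3 := (mem_filter.1 ha).2
      push Not at h3
      refine le_trans (card_le_card ?_) h3.le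
      intro b hb
      exact countR_mem.2 (mem_filter.1 hb).2
    have h3 : (B.image (fun a => φ a / T i)).card ≤
        w * ((B.image (fun a => φ a / T i)).image (fun h => h / w)).card := by
      apply Finset.card_le_mul_card_image
      intro g _
      have h4 : (filter (fun h => h / w = g) (B.image (fun a => φ a / T i))).card ≤
          (Finset.Ico (g * w) (g * w + w)).card := by
        apply card_le_card
        intro h hh
        have h5 := (mem_filter.1 hh).2
        have h6 := Nat.div_mul_le_self h w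
        have h7 : h < h / w * w + w := Nat.lt_div_mul_add hw
        rw [h5] at h6 h7
        exact mem_Ico.2 ⟨h6, h7⟩
      simpa using h4
    have h4 : ((B.image (fun a => φ a / T i)).image (fun h => h / w)).card ≤ v := by
      refine le_trans (card_le_card ?_) (hH (i + 1) hi)
      intro g hg
      obtain ⟨h, hh, rfl⟩ := mem_image.1 hg
      obtain ⟨a, ha, rfl⟩ := mem_image.1 hh
      refine mem_image.2 ⟨a, (mem_filter.1 ha).1, ?_⟩
      rw [hT, Nat.div_div_eq_div_mul]
    calc B.card ≤ (2 * x) * (B.image (fun a => φ a / T i)).card := h2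
      _ ≤ (2 * x) * (w * v) := Nat.mul_le_mul_left _ (h3.trans (Nat.mul_le_mul_left _ h4))
      _ = v * w * (2 * x) := by ring
  have hW : ∀ i, i < L → (countW φ x (T i)).card ≤ i * (v * w * (2 * x)) + v * T 0 := by
    intro i
    induction i with
    | zero => intro _; simpa using hW0
    | succ i ih =>
      intro hi
      have h1 := hstep i hi
      have h2 := ih (by omega)
      have h3 : (i + 1) * (v * w * (2 * x)) = i * (v * w * (2 * x)) + v * w * (2 * x) := by ring
      omega
  -- light points of the last level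
  have hlast := hW (L - 1) (by omega)
  have h1 : n = (countW φ x (T (L - 1))).card +
      (univ.filter (fun a : Fin n => ¬ 2 * x ≤ (countR φ (T (L - 1)) (φ a / T (L - 1))).card)).card := by
    have := card_filter_add_card_filter_not (s := (univ : Finset (Fin n)))
        (fun a => 2 * x ≤ (countR φ (T (L - 1)) (φ a / T (L - 1))).card)
    rw [card_univ, Fintype.card_fin] at this
    exact this.symm
  have h2 : (univ.filter (fun a : Fin n => ¬ 2 * x ≤ (countR φ (T (L - 1)) (φ a / T (L - 1))).card)).card ≤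
      2 * x * K := by
    set B := univ.filter (fun a : Fin n => ¬ 2 * x ≤ (countR φ (T (L - 1)) (φ a / T (L - 1))).card) with hB
    have h2 : B.card ≤ (2 * x) * (B.image (fun a => φ a / T (L - 1))).card := by
      apply Finset.card_le_mul_card_image
      intro g hg
      obtain ⟨a, ha, rfl⟩ := mem_image.1 hg
      have h3 := (mem_filter.1 ha).2
      push Not at h3
      refine le_trans (card_le_card ?_) h3.le
      intro b hb
      exact countR_mem.2 (mem_filter.1 hb).2
    have h3 : (B.image (fun a => φ a / T (L - 1))).card ≤ K := by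
      have h4 : B.image (fun a => φ a / T (L - 1)) ⊆ Finset.range K := by
        intro g hg
        obtain ⟨a, _, rfl⟩ := mem_image.1 hg
        rw [mem_range]
        exact Nat.div_lt_of_lt_mul (by rw [mul_comm]; exact hK a)
      simpa using card_le_card h4
    exact h2.trans (Nat.mul_le_mul_left _ h3)
  omega

end Pool.Agent.H76.LX
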