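import Pool.Agent.H46.TS.Group
import Pool.Agent.H46.SR.Final

/-! Definitions: the multi-scale colouring and the random rows. -/

namespace Pool.Agent.H76.LX

open Finset Pool.Agent.H46.SR Pool.Agent.H46.TS

/-- the level of the scale `k`: the least `i` such that `M0 ^ (L - 1 - i)` divides `k` -/
noncomputable def lev (L M0 k : ℕ) : ℕ := sInf {i : ℕ | M0 ^ (L - 1 - i) ∣ k}

theorem lev_spec (L M0 k : ℕ) : M0 ^ (L - 1 - lev L M0 k) ∣ k := by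
  have h : (L - 1) ∈ {i : ℕ | M0 ^ (L - 1 - i) ∣ k} := by simp
  exact Nat.sInf_mem (s := {i : ℕ | M0 ^ (L - 1 - i) ∣ k}) ⟨_, h⟩

theorem lev_le (L M0 k : ℕ) : lev L M0 k ≤ L - 1 := by
  apply Nat.sInf_le
  simp

theorem lev_le_of {L M0 k i : ℕ} (h : M0 ^ (L - 1 - i) ∣ k) : lev L M0 k ≤ i := Nat.sInf_le h

theorem le_lev {L M0 k i : ℕ} (h : ∀ j < i, ¬ M0 ^ (L - 1 - j) ∣ k) : i ≤ lev L M0 k := by
  by_contra hcon
  push Not at hcon
  exact h _ hcon (lev_spec L M0 k)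

theorem pl_lt {l m : ℕ} (hl : 0 < l) (hd : l ∣ m) {X : ℕ} (hX : X < m) (Y : ℕ) :
    pl l X Y < m := by
  obtain ⟨q, rfl⟩ := hd
  have h1 : X / l < q := Nat.div_lt_of_lt_mul hX
  unfold pl
  have h2 : Y % l < l := Nat.mod_lt _ hl
  calc X / l * l + Y % l < X / l * l + l := by omega
    _ = (X / l + 1) * l := by ring
    _ ≤ q * l := Nat.mul_le_mul_right _ h1
    _ = l * q := mul_comm _ _

/-- the sample space of one row: two scales, a base column, three block columns, `3 q` leaves -/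
abbrev Rw (z q D : ℕ) : Type :=
  (Fin (D + 1) × Fin (D + 1)) × (Fin (z ^ D) × (Fin 3 → Fin (z ^ D))) ×
    (Fin 3 × Fin q → Fin (z ^ D))

/-- the columns of the ones of a row -/
def lfN {z q D : ℕ} (r : Rw z q D) (c : Fin 3 × Fin q) : ℕ :=
  pl (z ^ r.1.1.val) (pl (z ^ r.1.2.val) r.2.1.1.val (r.2.1.2 c.1).val) (r.2.2 c).val

theorem lfN_lt {z q D : ℕ} (hz : 0 < z) (r : Rw z q D) (c : Fin 3 × Fin q) :
    lfN r c < z ^ D := by
  have h1 : r.1.1.val ≤ D := by have := r.1.1.2; omega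
  have h2 : r.1.2.val ≤ D := by have := r.1.2.2; omega
  unfold lfN
  apply pl_lt (pow_pos hz _) (pow_dvd_pow _ h1)
  exact pl_lt (pow_pos hz _) (pow_dvd_pow _ h2) r.2.1.1.2 _

/-- all parameters -/
structure Par where
  z : ℕ
  q : ℕ
  L : ℕ
  M0 : ℕ
  δ : ℕ
  t0 : ℕ
  ρ : ℕ
  τ : ℕ
  D : ℕ
  G : ℕ
  hz : 2 ≤ z
  hq : 1 ≤ q
  hL : 1 ≤ L
  hM0 : 2 ≤ M0
  hτ : 1 ≤ τ
  hG : G ≤ δ * M0 ^ L
  ht : t0 + ρ * (L - 1) ≤ G
  hD : 2 * M0 ^ L + (δ + 3) * M0 ^ (L - 1) + τ + 4 ≤ D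

namespace Par

variable (P : Par)

/-- number of scales -/
def La : ℕ := P.M0 ^ P.L
/-- length of a time cell -/
def T (i : ℕ) : ℕ := P.z ^ (P.t0 + P.ρ * i)
/-- length of a column cell -/
def U (k : ℕ) : ℕ := P.z ^ (P.δ * k)
/-- side of the coloured matrix -/
def N : ℕ := P.z ^ P.G
/-- number of values of a coordinate -/
def Q : ℕ := P.z ^ P.τ
/-- level of a scale -/
noncomputable def lv (k : ℕ) : ℕ := lev P.L P.M0 k

theorem zpos : 0 < P.z := by have := P.hz; omega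
theorem T_pos (i : ℕ) : 0 < P.T i := pow_pos P.zpos _
theorem U_pos (k : ℕ) : 0 < P.U k := pow_pos P.zpos _
theorem N_pos : 0 < P.N := pow_pos P.zpos _
theorem Q_pos : 0 < P.Q := pow_pos P.zpos _
theorem lv_lt (k : ℕ) : P.lv k < P.L := by
  have := lev_le P.L P.M0 k
  have := P.hL
  unfold lv
  omega
theorem T_dvd {i j : ℕ} (h : i ≤ j) : P.T i ∣ P.T j := by
  unfold T
  exact pow_dvd_pow _ (by have := Nat.mul_le_mul_left P.ρ h; omega)
theorem U_dvd {i j : ℕ} (h : i ≤ j) : P.U i ∣ P.U j := by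
  unfold U
  exact pow_dvd_pow _ (Nat.mul_le_mul_left _ h)
theorem T_dvd_N {i : ℕ} (h : i < P.L) : P.T i ∣ P.N := by
  unfold T N
  apply pow_dvd_pow
  have h1 := P.ht
  have h2 : P.ρ * i ≤ P.ρ * (P.L - 1) := Nat.mul_le_mul_left _ (by omega)
  omega

instance : NeZero P.N := ⟨P.N_pos.ne'⟩
instance : NeZero P.Q := ⟨P.Q_pos.ne'⟩
instance : Nonempty (Fin P.Q) := ⟨⟨0, P.Q_pos⟩⟩

/-- integer division on `Fin n` -/
def dv {n : ℕ} (l : ℕ) (x : Fin n) : Fin n := ⟨x.val / l, lt_of_le_of_lt (Nat.div_le_self _ _) x.2⟩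

/-- the coordinates: scale, time cell, column cell -/
abbrev Co : Type := Fin P.La × Fin P.N × Fin P.N
/-- the random colouring -/
abbrev Sp : Type := P.Co → Fin P.Q
/-- the random row -/
abbrev Rr : Type := Rw P.z P.q P.D

/-- the flip of scale `k` at the point `(x, y)` -/
noncomputable def fl (ω : P.Sp) (k : Fin P.La) (x y : Fin P.N) : ZMod 2 :=
  if (ω (k, dv (P.T (P.lv k.val)) x, dv (P.U k.val) y)).val = 0 then 1 else 0

/-- the colour -/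
noncomputable def col (ω : P.Sp) (x y : Fin P.N) : ZMod 2 := ∑ k : Fin P.La, P.fl ω k x y

/-- the columns of a row -/
def lf (r : P.Rr) (c : Fin 3 × Fin P.q) : Fin (P.z ^ P.D) := ⟨lfN r c, lfN_lt P.zpos r c⟩

/-- row `r` can be placed in the time cell `β` of level `i`, in some colour -/
def Plc (ω : P.Sp) (ψ : Fin (P.z ^ P.D) → Fin P.N) (i β : ℕ) (r : P.Rr) : Prop :=
  ∃ x : Fin P.N, x.val / P.T i = β ∧ ∃ t : ZMod 2, ∀ c, P.col ω x (ψ (P.lf r c)) = t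

/-- the coordinates of level at most `i` inside the time cell `β` of level `i` -/
def Db (i β : ℕ) : Set P.Co := {c | P.lv c.1.val ≤ i ∧ c.2.1.val / (P.T i / P.T (P.lv c.1.val)) = β}

/-- the data of a profile: scales `k1 < k3 ≤ k2`, block scales `s1 < s2`, good columns `TT` -/
structure Prof (ψ : Fin (P.z ^ P.D) → Fin P.N) (i : ℕ) where
  k1 : ℕ
  k2 : ℕ
  k3 : ℕ
  s1 : ℕ
  s2 : ℕ
  TT : Finset (Fin (P.z ^ P.D))
  h13 : k1 < k3
  h32 : k3 ≤ k2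
  h2 : k2 < P.La
  hs : s1 < s2
  hsD : s2 + P.τ + 1 ≤ P.D
  hlev : ∀ k, k1 < k → k ≤ k2 → i ≤ P.lv k
  hlev3 : P.lv k3 = i
  hTT : P.z ^ P.D ≤ TT.card * (2 * (P.D + 1) ^ (P.La + 1))
  hb1 : ∀ b ∈ TT, ∀ b' : Fin (P.z ^ P.D), b'.val / P.z ^ s1 = b.val / P.z ^ s1 →
    (ψ b').val / P.U (k1 + 1) = (ψ b).val / P.U (k1 + 1)
  hb2 : ∀ b ∈ TT, ∀ b' : Fin (P.z ^ P.D), b'.val / P.z ^ s2 = b.val / P.z ^ s2 →
    (ψ b').val / P.U (k2 + 1) = (ψ b).val / P.U (k2 + 1)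
  hJ1 : ∀ b ∈ TT, (univ.filter (fun b' : Fin (P.z ^ P.D) =>
    (ψ b').val / P.U k1 = (ψ b).val / P.U k1)).card * P.z ≤ P.z ^ s1
  hJ2 : ∀ b ∈ TT, (univ.filter (fun b' : Fin (P.z ^ P.D) =>
    (ψ b').val / P.U k2 = (ψ b).val / P.U k2)).card * P.z ≤ P.z ^ s2

variable {P}

/-- a row in good position for the profile -/
structure Gd {ψ : Fin (P.z ^ P.D) → Fin P.N} {i : ℕ} (F : P.Prof ψ i) (r : P.Rr) : Prop where
  g0 : r.1.1.val = F.s1
  g0' : r.1.2.val = F.s2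
  gT : ∀ c, P.lf r c ∈ F.TT
  g1 : ∀ j l l', l ≠ l' →
    (ψ (P.lf r (j, l))).val / P.U F.k1 ≠ (ψ (P.lf r (j, l'))).val / P.U F.k1
  g3 : ∀ j j' l l', j ≠ j' →
    (ψ (P.lf r (j, l))).val / P.U F.k2 ≠ (ψ (P.lf r (j', l'))).val / P.U F.k2

variable (P)

/-- first point of a time cell -/
def x0 (i β : ℕ) : Fin P.N := ⟨β * P.T i % P.N, Nat.mod_lt _ P.N_pos⟩

/-- the part of the colour of a leaf given by the flips of level at least `i`, without scale `k3` -/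
noncomputable def hi (ω : P.Sp) (i k3 : ℕ) (x y : Fin P.N) : ZMod 2 :=
  ∑ k ∈ univ.filter (fun k : Fin P.La => i ≤ P.lv k.val ∧ k.val ≠ k3), P.fl ω k x y

/-- the flips of scale `k3` -/
noncomputable def f3 (ω : P.Sp) (k3 : ℕ) (x y : Fin P.N) : ZMod 2 :=
  ∑ k ∈ univ.filter (fun k : Fin P.La => k.val = k3), P.fl ω k x y

open scoped Classical in
/-- the number of odd leaves is between `q` and `2 q` -/
def Mat (ω : P.Sp) (ψ : Fin (P.z ^ P.D) → Fin P.N) (i k3 β : ℕ) (r : P.Rr) : Prop :=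
  P.q ≤ (univ.filter (fun c : Fin 3 × Fin P.q =>
      P.hi ω i k3 (P.x0 i β) (ψ (P.lf r c)) + P.f3 ω k3 (P.x0 i β) (ψ (P.lf r c)) = 1)).card ∧
  (univ.filter (fun c : Fin 3 × Fin P.q =>
      P.hi ω i k3 (P.x0 i β) (ψ (P.lf r c)) + P.f3 ω k3 (P.x0 i β) (ψ (P.lf r c)) = 1)).card
    ≤ 2 * P.q

/-- the row can be repaired by `q` fine flips of lower level -/
def Rep (ω : P.Sp) (ψ : Fin (P.z ^ P.D) → Fin P.N) (i k1 β : ℕ) (r : P.Rr) : Prop :=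
  ∃ x : Fin P.N, x.val / P.T i = β ∧ ∃ S : Finset (Fin 3 × Fin P.q), S.card = P.q ∧
    ∀ c ∈ S, ∃ k : Fin P.La, k.val ≤ k1 ∧ P.lv k.val < i ∧ P.fl ω k x (ψ (P.lf r c)) = 1

end Par

end Pool.Agent.H76.LX
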