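import Pool.Agent.H46.TS.Group

/-! Marginals: one block of rows and all flips. -/

namespace Pool.Agent.H76.LX

open Finset Pool.Agent.H46.SR Pool.Agent.H46.TS

/-- splitting a function with values in a product -/
def margE (I R Q : Type*) : (I → R × Q) ≃ (I → R) × (I → Q) where
  toFun ω := (fun i => (ω i).1, fun i => (ω i).2)
  invFun p := fun i => (p.1 i, p.2 i)
  left_inv := fun _ => rfl
  right_inv := fun _ => rfl

theorem av_marg {X Y C R Q : Type*} [Fintype X] [DecidableEq X] [Fintype Y] [DecidableEq Y]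
    [Fintype C] [DecidableEq C] [Fintype R] [Nonempty R] [Fintype Q] [Nonempty Q] (b : X)
    (F : (Y → R) → (C → Q) → ℝ) :
    av (fun ω : ((X × Y) ⊕ C) → R × Q =>
      F (fun a => (ω (Sum.inl (b, a))).1) (fun c => (ω (Sum.inr c)).2)) =
      av (fun p : (Y → R) × (C → Q) => F p.1 p.2) := by
  have h1 : av (fun ω : ((X × Y) ⊕ C) → R × Q =>
      F (fun a => (ω (Sum.inl (b, a))).1) (fun c => (ω (Sum.inr c)).2)) =
      av (fun p : (((X × Y) ⊕ C) → R) × (((X × Y) ⊕ C) → Q) =>
        F (fun a => p.1 (Sum.inl (b, a))) (fun c => p.2 (Sum.inr c))) := by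
    rw [← av_equiv (margE ((X × Y) ⊕ C) R Q)]
    rfl
  have hinl : Function.Injective (fun a : Y => (Sum.inl (b, a) : (X × Y) ⊕ C)) := by
    intro a a' h
    simpa using h
  have hinr : Function.Injective (fun c : C => (Sum.inr c : (X × Y) ⊕ C)) := Sum.inr_injective
  rw [h1, av_prod, av_prod]
  have h2 : ∀ u : ((X × Y) ⊕ C) → R,
      av (fun v : ((X × Y) ⊕ C) → Q => F (fun a => u (Sum.inl (b, a))) (fun c => v (Sum.inr c)))
        = av (fun v' : C → Q => F (fun a => u (Sum.inl (b, a))) v') := fun u =>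
    av_comp_inj (fun c : C => (Sum.inr c : (X × Y) ⊕ C)) hinr
      (fun v' : C → Q => F (fun a => u (Sum.inl (b, a))) v')
  simp only [h2]
  exact av_comp_inj (fun a : Y => (Sum.inl (b, a) : (X × Y) ⊕ C)) hinl
    (fun u' : Y → R => av (fun v' : C → Q => F u' v'))

end Pool.Agent.H76.LX
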