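import Pool.Agent.H76.LX.Defs

/-! Active scales: for every level two active scales with exactly the right levels in between. -/

namespace Pool.Agent.H76.LX

open Finset

theorem profB_sum {N δ : ℕ} (Pr : ℕ → ℕ) (h0 : Pr 0 = 0)
    (h2 : ∀ k < N, Pr (k + 1) ≤ Pr k + δ + 3) (n : ℕ) (hn : n ≤ N) :
    Pr n ≤ 2 * n + (δ + 3) * ((range n).filter (fun k => Pr k + 3 ≤ Pr (k + 1))).card := by
  induction n with
  | zero => simp [h0]
  | succ n ih =>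
    have ih' := ih (by omega)
    have h := h2 n (by omega)
    rw [range_add_one, filter_insert]
    split_ifs with hc
    · rw [card_insert_of_notMem (by simp)]
      rw [mul_add (δ + 3)]
      omega
    · omega

theorem profB_nomul {M k1 k2 k : ℕ} (hM : 0 < M) (he : k1 / M = k2 / M) (h1 : k1 < k)
    (h2 : k ≤ k2) : ¬ M ∣ k := by
  rintro ⟨q, rfl⟩
  have ha : k1 / M ≤ M * q / M := Nat.div_le_div_right h1.le
  have hb : M * q / M ≤ k2 / M := Nat.div_le_div_right h2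
  rw [Nat.mul_div_cancel_left _ hM] at ha hb
  have hq : q = k1 / M := by omega
  have : M * q ≤ k1 := by
    rw [hq]
    exact Nat.mul_div_le k1 M
  omega

theorem profB_pair {L M0 i k1 k2 : ℕ} (hL : 1 ≤ L) (hM0 : 2 ≤ M0) (hi : i < L) (hlt : k1 < k2)
    (ha : k1 / M0 ^ (L - 1 - i + 1) = k2 / M0 ^ (L - 1 - i + 1))
    (hb : k1 % M0 ^ (L - 1 - i) = k2 % M0 ^ (L - 1 - i)) :
    ∃ k3, k1 < k3 ∧ k3 ≤ k2 ∧ lev L M0 k3 = i ∧ ∀ k, k1 < k → k ≤ k2 → i ≤ lev L M0 k := by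
  have hpos : 0 < M0 ^ (L - 1 - i) := pow_pos (by omega) _
  have hpos' : 0 < M0 ^ (L - 1 - i + 1) := pow_pos (by omega) _
  have key : ∀ k, k1 < k → k ≤ k2 → i ≤ lev L M0 k := by
    intro k hk1 hk2
    apply le_lev
    intro j hj hd
    exact profB_nomul hpos' ha hk1 hk2 ((pow_dvd_pow M0 (by omega)).trans hd)
  have e1 := Nat.div_add_mod k1 (M0 ^ (L - 1 - i))
  have e2 := Nat.div_add_mod k2 (M0 ^ (L - 1 - i))
  have m1 := Nat.mod_lt k1 hpos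
  have hdiv : k1 / M0 ^ (L - 1 - i) < k2 / M0 ^ (L - 1 - i) := by
    by_contra hcon
    push Not at hcon
    have := Nat.mul_le_mul_left (M0 ^ (L - 1 - i)) hcon
    omega
  have hle : M0 ^ (L - 1 - i) * (k1 / M0 ^ (L - 1 - i) + 1) ≤
      M0 ^ (L - 1 - i) * (k2 / M0 ^ (L - 1 - i)) := Nat.mul_le_mul_left _ hdiv
  have hmul : M0 ^ (L - 1 - i) * (k1 / M0 ^ (L - 1 - i) + 1) =
      M0 ^ (L - 1 - i) * (k1 / M0 ^ (L - 1 - i)) + M0 ^ (L - 1 - i) := by ring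
  have h13 : k1 < M0 ^ (L - 1 - i) * (k1 / M0 ^ (L - 1 - i) + 1) := by omega
  have h32 : M0 ^ (L - 1 - i) * (k1 / M0 ^ (L - 1 - i) + 1) ≤ k2 :=
    hle.trans (Nat.mul_div_le k2 _)
  refine ⟨M0 ^ (L - 1 - i) * (k1 / M0 ^ (L - 1 - i) + 1), h13, h32, ?_, key⟩
  apply le_antisymm
  · exact lev_le_of (Dvd.intro _ rfl)
  · exact key _ h13 h32

theorem profileB {L M0 δ D τ : ℕ} (hL : 1 ≤ L) (hM0 : 2 ≤ M0)
    (hD : 2 * M0 ^ L + (δ + 3) * M0 ^ (L - 1) + τ + 4 ≤ D) (Pr : ℕ → ℕ) (h0 : Pr 0 = 0)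
    (h1 : Pr (M0 ^ L) = D)
    (h2 : ∀ k < M0 ^ L, Pr k ≤ Pr (k + 1) ∧ Pr (k + 1) ≤ Pr k + δ + 3) {i : ℕ} (hi : i < L) :
    ∃ k1 k2 k3 : ℕ, k1 < k3 ∧ k3 ≤ k2 ∧ k2 < M0 ^ L ∧ Pr k1 + 3 ≤ Pr (k1 + 1) ∧
      Pr k2 + 3 ≤ Pr (k2 + 1) ∧ Pr k2 + τ + 4 ≤ D ∧ lev L M0 k3 = i ∧
      ∀ k, k1 < k → k ≤ k2 → i ≤ lev L M0 k := by
  classical
  set Act := (range (M0 ^ L)).filter (fun k => Pr k + 3 ≤ Pr (k + 1) ∧ Pr k + τ + 4 ≤ D) with hAct
  have hex : ∃ k, k ≤ M0 ^ L ∧ D < Pr k + τ + 4 := ⟨M0 ^ L, le_rfl, by omega⟩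
  obtain ⟨hk0, hk0'⟩ := Nat.find_spec hex
  set k0 := Nat.find hex with hk0def
  have hmin : ∀ k < k0, Pr k + τ + 4 ≤ D := by
    intro k hk
    have := Nat.find_min hex hk
    push Not at this
    exact this (by omega)
  have hsub : (range k0).filter (fun k => Pr k + 3 ≤ Pr (k + 1)) ⊆ Act := by
    intro k hk
    simp only [mem_filter, mem_range, hAct] at hk ⊢
    exact ⟨by omega, hk.2, hmin k hk.1⟩
  have hsum := profB_sum Pr h0 (fun k hk => (h2 k hk).2) k0 hk0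
  have hcard : M0 ^ (L - 1) < Act.card := by
    by_contra hcon
    push Not at hcon
    have hc := (card_le_card hsub).trans hcon
    have := Nat.mul_le_mul_left (δ + 3) hc
    omega
  have hLe : M0 ^ L = M0 ^ i * M0 ^ (L - 1 - i + 1) := by
    rw [← pow_add]; congr 1; omega
  have hLe' : M0 ^ (L - 1) = M0 ^ i * M0 ^ (L - 1 - i) := by
    rw [← pow_add]; congr 1; omega
  have hpos : 0 < M0 ^ (L - 1 - i) := pow_pos (by omega) _
  have hpos' : 0 < M0 ^ (L - 1 - i + 1) := pow_pos (by omega) _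
  have hmaps : ∀ k ∈ Act, (k / M0 ^ (L - 1 - i + 1), k % M0 ^ (L - 1 - i)) ∈
      (range (M0 ^ i)) ×ˢ (range (M0 ^ (L - 1 - i))) := by
    intro k hk
    simp only [hAct, mem_filter, mem_range] at hk
    simp only [mem_product, mem_range]
    refine ⟨?_, Nat.mod_lt _ hpos⟩
    apply Nat.div_lt_of_lt_mul
    rw [mul_comm, ← hLe]
    exact hk.1
  have hcard' : ((range (M0 ^ i)) ×ˢ (range (M0 ^ (L - 1 - i)))).card < Act.card := by
    rw [card_product, card_range, card_range, ← hLe']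
    exact hcard
  obtain ⟨x, hx, y, hy, hne, heq⟩ := exists_ne_map_eq_of_card_lt_of_maps_to hcard' hmaps
  simp only [Prod.mk.injEq] at heq
  simp only [hAct, mem_filter, mem_range] at hx hy
  rcases lt_or_gt_of_ne hne with hlt | hlt
  · obtain ⟨k3, a, b, c, d⟩ := profB_pair hL hM0 hi hlt heq.1 heq.2
    exact ⟨x, y, k3, a, b, hy.1, hx.2.1, hy.2.1, hy.2.2, c, d⟩
  · obtain ⟨k3, a, b, c, d⟩ := profB_pair hL hM0 hi hlt heq.1.symm heq.2.symm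
    exact ⟨y, x, k3, a, b, hx.1, hy.2.1, hx.2.1, hx.2.2, c, d⟩

end Pool.Agent.H76.LX
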