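import Pool.Agent.H76.LX.ProfA
import Pool.Agent.H76.LX.ProfB

/-! Existence of a profile. -/

namespace Pool.Agent.H76.LX

open Finset

theorem Prof_mono {Pr : ℕ → ℕ} {La : ℕ} (h : ∀ k < La, Pr k ≤ Pr (k + 1)) {a b : ℕ}
    (hab : a ≤ b) (hb : b ≤ La) : Pr a ≤ Pr b := by
  induction b, hab using Nat.le_induction with
  | base => exact le_rfl
  | succ b hab ih => exact (ih (by omega)).trans (h b (by omega))

theorem Prof_div {z s t b b' : ℕ} (h : s ≤ t) (hb : b' / z ^ s = b / z ^ s) :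
    b' / z ^ t = b / z ^ t := by
  obtain ⟨u, rfl⟩ := Nat.exists_eq_add_of_le h
  rw [pow_add, ← Nat.div_div_eq_div_mul, ← Nat.div_div_eq_div_mul, hb]

namespace Par

variable (P : Par)

theorem exists_prof (hzb : 2 * (2 * P.D * (P.La + 1) + P.La) + 2 ≤ P.z)
    (ψ : Fin (P.z ^ P.D) → Fin P.N) (hψ : StrictMono ψ) {i : ℕ} (hi : i < P.L) :
    Nonempty (P.Prof ψ i) := by
  obtain ⟨Pr, TT, hTT, h0, h1, hst, hb⟩ :=
    profileA (z := P.z) (δ := P.δ) (Λ := P.La) (D := P.D) (G := P.G) hzb P.hG ψ hψ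
  obtain ⟨k1, k2, k3, h13, h32, h2, hp1, hp2, hDD, hl3, hlv⟩ :=
    profileB P.hL P.hM0 P.hD Pr h0 h1 hst hi
  have h2' : k2 < P.La := h2
  have ha : Pr (k1 + 1) ≤ Pr k2 :=
    Prof_mono (fun k hk => (hst k hk).1) (by omega) (by omega : k2 ≤ P.La)
  refine ⟨{ k1 := k1, k2 := k2, k3 := k3, s1 := Pr k1 + 3, s2 := Pr k2 + 3, TT := TT,
            h13 := h13, h32 := h32, h2 := h2, hs := by omega, hsD := by omega,
            hlev := hlv, hlev3 := hl3, hTT := hTT, hb1 := ?_, hb2 := ?_,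
            hJ1 := ?_, hJ2 := ?_ }⟩
  · intro b hbT b' hbb
    exact (hb b hbT (k1 + 1) (by omega)).1 b' (Prof_div hp1 hbb)
  · intro b hbT b' hbb
    exact (hb b hbT (k2 + 1) (by omega)).1 b' (Prof_div hp2 hbb)
  · intro b hbT
    have h := (hb b hbT k1 (by omega)).2
    calc _ ≤ P.z ^ (Pr k1 + 2) * P.z := Nat.mul_le_mul_right _ h
      _ = P.z ^ (Pr k1 + 3) := by ring
  · intro b hbT
    have h := (hb b hbT k2 (by omega)).2
    calc _ ≤ P.z ^ (Pr k2 + 2) * P.z := Nat.mul_le_mul_right _ h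
      _ = P.z ^ (Pr k2 + 3) := by ring

end Par

end Pool.Agent.H76.LX
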