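import Pool.Agent.H46.TS.Group

/-! Union bound over monotone matchings of blocks and cells. -/

namespace Pool.Agent.H76.LX

open Finset Pool.Agent.H46.SR Pool.Agent.H46.TS

/-- the number of strictly increasing maps -/
theorem card_strictMono (v K : ℕ) :
    (((univ : Finset (Fin v → Fin K)).filter (fun f => StrictMono f)).card : ℝ) ≤
      (K : ℝ) ^ v / (v.factorial : ℝ) := by
  classical
  have h1 : ((univ : Finset (Fin v → Fin K)).filter (fun f => StrictMono f)).card ≤
      (powersetCard v (univ : Finset (Fin K))).card := by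
    apply Finset.card_le_card_of_injOn (fun f => univ.image f)
    · intro f hf
      have hf' : StrictMono f := by simpa using hf
      rw [mem_coe, mem_powersetCard]
      refine ⟨subset_univ _, ?_⟩
      rw [Finset.card_image_of_injective _ hf'.injective]
      simp
    · intro f hf g hg hfg
      have hf' : StrictMono f := by simpa using hf
      have hg' : StrictMono g := by simpa using hg
      have h2 : (univ.image f : Finset (Fin K)) = univ.image g := hfg
      apply (StrictMono.range_inj hf' hg').mp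
      have h3 := congrArg (fun s : Finset (Fin K) => (s : Set (Fin K))) h2
      simpa using h3
  rw [card_powersetCard, card_univ, Fintype.card_fin] at h1
  calc (((univ : Finset (Fin v → Fin K)).filter (fun f => StrictMono f)).card : ℝ)
      ≤ (K.choose v : ℝ) := by exact_mod_cast h1
    _ ≤ (K : ℝ) ^ v / (v.factorial : ℝ) := Nat.choose_le_pow_div v K

theorem unionA {ι B : Type*} [Fintype ι] [DecidableEq ι] [Fintype B] [Nonempty B] {nb nc v : ℕ}
    (E : Fin nb → Fin nc → (ι → B) → Prop) (D : Fin nb → Fin nc → Set ι) {p : ℝ} (hp0 : 0 ≤ p)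
    (inv : ∀ b b' β β', b ≠ b' → β ≠ β' → ∀ ω ω', E b β (mix (D b' β') ω ω') ↔ E b β ω)
    (hp : ∀ b β ω, av (fun ω' => ind (E b β (mix (D b β) ω ω'))) ≤ p) :
    av (fun ω : ι → B => ind (∃ (f : Fin v → Fin nb) (g : Fin v → Fin nc), StrictMono f ∧
      StrictMono g ∧ ∀ l, E (f l) (g l) ω)) ≤
      ((nb : ℝ) ^ v / (v.factorial : ℝ)) * ((nc : ℝ) ^ v / (v.factorial : ℝ)) * p ^ v := by
  classical
  set A : Finset (Fin v → Fin nb) := univ.filter (fun f => StrictMono f) with hA
  set A' : Finset (Fin v → Fin nc) := univ.filter (fun g => StrictMono g) with hA'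
  have hcA : (A.card : ℝ) ≤ (nb : ℝ) ^ v / (v.factorial : ℝ) := by
    have h := card_strictMono v nb
    convert h using 3
  have hcA' : (A'.card : ℝ) ≤ (nc : ℝ) ^ v / (v.factorial : ℝ) := by
    have h := card_strictMono v nc
    convert h using 3
  have h1 : ∀ ω : ι → B, ind (∃ (f : Fin v → Fin nb) (g : Fin v → Fin nc), StrictMono f ∧
      StrictMono g ∧ ∀ l, E (f l) (g l) ω) ≤
      ∑ x ∈ A ×ˢ A', ind (∀ l ∈ (univ : Finset (Fin v)), E (x.1 l) (x.2 l) ω) := by
    intro ω
    by_cases h : ∃ (f : Fin v → Fin nb) (g : Fin v → Fin nc), StrictMono f ∧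
      StrictMono g ∧ ∀ l, E (f l) (g l) ω
    · rw [ind_pos h]
      obtain ⟨f, g, hf, hg, hE⟩ := h
      have hm : (f, g) ∈ A ×ˢ A' := by
        rw [mem_product, hA, hA', mem_filter, mem_filter]
        exact ⟨⟨mem_univ _, hf⟩, ⟨mem_univ _, hg⟩⟩
      calc (1 : ℝ) = ind (∀ l ∈ (univ : Finset (Fin v)), E (f l) (g l) ω) :=
            (ind_pos (fun l _ => hE l)).symm
        _ ≤ ∑ x ∈ A ×ˢ A', ind (∀ l ∈ (univ : Finset (Fin v)), E (x.1 l) (x.2 l) ω) :=
            Finset.single_le_sum
              (f := fun x : (Fin v → Fin nb) × (Fin v → Fin nc) =>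
                ind (∀ l ∈ (univ : Finset (Fin v)), E (x.1 l) (x.2 l) ω))
              (fun x _ => ind_nonneg _) hm
    · rw [ind_neg h]
      exact Finset.sum_nonneg (fun x _ => ind_nonneg _)
  have h2 : ∀ x ∈ A ×ˢ A',
      av (fun ω : ι → B => ind (∀ l ∈ (univ : Finset (Fin v)), E (x.1 l) (x.2 l) ω)) ≤ p ^ v := by
    intro x hx
    rw [mem_product, hA, hA', mem_filter, mem_filter] at hx
    have hf := hx.1.2.injective
    have hg := hx.2.2.injective
    have h := prod_bound (fun l : Fin v => D (x.1 l) (x.2 l)) (fun l : Fin v => E (x.1 l) (x.2 l))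
      hp0 (fun l l' hll ω ω' => inv _ _ _ _ (fun h => hll (hf h)) (fun h => hll (hg h)) ω ω')
      (fun l ω => hp _ _ ω) univ
    simpa using h
  have hpv : 0 ≤ p ^ v := pow_nonneg hp0 v
  calc av (fun ω : ι → B => ind (∃ (f : Fin v → Fin nb) (g : Fin v → Fin nc), StrictMono f ∧
      StrictMono g ∧ ∀ l, E (f l) (g l) ω))
      ≤ av (fun ω : ι → B => ∑ x ∈ A ×ˢ A',
          ind (∀ l ∈ (univ : Finset (Fin v)), E (x.1 l) (x.2 l) ω)) := av_mono h1
    _ = ∑ x ∈ A ×ˢ A', av (fun ω : ι → B =>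
          ind (∀ l ∈ (univ : Finset (Fin v)), E (x.1 l) (x.2 l) ω)) :=
        av_sum (A ×ˢ A') (fun x ω => ind (∀ l ∈ (univ : Finset (Fin v)), E (x.1 l) (x.2 l) ω))
    _ ≤ ∑ _x ∈ A ×ˢ A', p ^ v := Finset.sum_le_sum h2
    _ = (A.card : ℝ) * (A'.card : ℝ) * p ^ v := by
        rw [Finset.sum_const, nsmul_eq_mul, card_product]
        push_cast
        ring
    _ ≤ ((nb : ℝ) ^ v / (v.factorial : ℝ)) * ((nc : ℝ) ^ v / (v.factorial : ℝ)) * p ^ v := by
        apply mul_le_mul_of_nonneg_right _ hpv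
        exact mul_le_mul hcA hcA' (Nat.cast_nonneg _)
          (div_nonneg (pow_nonneg (Nat.cast_nonneg _) _) (Nat.cast_nonneg _))

end Pool.Agent.H76.LX

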