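import Pool.Agent.H76.LX.Block
import Pool.Agent.H76.LX.Prof
import Pool.Agent.H76.LX.UnionA
import Pool.Agent.H76.LX.Marg
import Pool.Agent.H76.LX.Count

/-! The lower bound for given parameters. -/

namespace Pool.Agent.H76.LX

open Finset Pool.Agent.H46.SR Pool.Agent.H46.TS

namespace Par

variable (P : Par)

/-- rows in a block -/
abbrev x : ℕ := P.z ^ (P.τ + 1)

/-- all random choices: rows and flips -/
abbrev Om (nb : ℕ) : Type := ((Fin nb × Fin P.x) ⊕ P.Co) → P.Rr × Fin P.Q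

variable {nb : ℕ}

/-- the rows of the matrix -/
def rowsO (ω : P.Om nb) (b : Fin nb) (a : Fin P.x) : P.Rr := (ω (Sum.inl (b, a))).1

/-- the colouring -/
def flipO (ω : P.Om nb) : P.Sp := fun c => (ω (Sum.inr c)).2

/-- all rows of the block `b` can be placed in the time cell `β` of level `i` -/
def Ev (ψ : Fin (P.z ^ P.D) → Fin P.N) (i : ℕ) (b : Fin nb) (β : Fin (P.N / P.T i))
    (ω : P.Om nb) : Prop :=
  ∀ a, P.Plc (P.flipO ω) ψ i β.val (P.rowsO ω b a)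

/-- the coordinates resampled for the block `b` and the cell `β` -/
def DD (i : ℕ) (b : Fin nb) (β : Fin (P.N / P.T i)) : Set ((Fin nb × Fin P.x) ⊕ P.Co) :=
  {s | (∃ a, s = Sum.inl (b, a)) ∨ ∃ c ∈ P.Db i β.val, s = Sum.inr c}

theorem fl_out {i β β' : ℕ} {x : Fin P.N} (hx : x.val / P.T i = β) (hne : β ≠ β')
    {ω ω' : P.Sp} (h : ∀ c, c ∉ P.Db i β' → ω c = ω' c) (k : Fin P.La) (y : Fin P.N) :
    P.fl ω k x y = P.fl ω' k x y := by
  unfold fl
  rw [h]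
  intro hmem
  obtain ⟨h1, h2⟩ := hmem
  simp only [dv] at h1 h2
  rw [Nat.div_div_eq_div_mul, Nat.mul_div_cancel' (P.T_dvd h1)] at h2
  exact hne (hx.symm.trans h2)

theorem plc_out {i β β' : ℕ} (hne : β ≠ β') {ω ω' : P.Sp}
    (h : ∀ c, c ∉ P.Db i β' → ω c = ω' c) (ψ : Fin (P.z ^ P.D) → Fin P.N) (r : P.Rr) :
    P.Plc ω ψ i β r ↔ P.Plc ω' ψ i β r := by
  unfold Plc
  apply exists_congr
  intro x
  apply and_congr_right
  intro hx
  apply exists_congr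
  intro t
  apply forall_congr'
  intro c
  unfold col
  rw [Finset.sum_congr rfl (fun k _ => P.fl_out hx hne h k _)]

theorem ev_out (ψ : Fin (P.z ^ P.D) → Fin P.N) (i : ℕ) (b b' : Fin nb)
    (β β' : Fin (P.N / P.T i)) (hb : b ≠ b') (hβ : β ≠ β') (ω ω' : P.Om nb) :
    P.Ev ψ i b β (mix (P.DD i b' β') ω ω') ↔ P.Ev ψ i b β ω := by
  unfold Ev
  apply forall_congr'
  intro a
  have h1 : P.rowsO (mix (P.DD i b' β') ω ω') b a = P.rowsO ω b a := by
    unfold rowsO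
    rw [mix_not_mem]
    rintro (⟨a', h⟩ | ⟨c, _, h⟩)
    · simp only [Sum.inl.injEq, Prod.mk.injEq] at h
      exact hb h.1
    · exact absurd h (by simp)
  rw [h1]
  apply P.plc_out (β' := β'.val) (fun h => hβ (Fin.ext h))
  intro c hc
  unfold flipO
  rw [mix_not_mem]
  rintro (⟨a', h⟩ | ⟨c', hc', h⟩)
  · exact absurd h (by simp)
  · simp only [Sum.inr.injEq] at h
    exact hc (h ▸ hc')

instance : Nonempty P.Rr := by
  have h : 0 < P.z ^ P.D := pow_pos P.zpos _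
  exact ⟨((⟨0, Nat.succ_pos _⟩, ⟨0, Nat.succ_pos _⟩), (⟨0, h⟩, fun _ => ⟨0, h⟩), fun _ => ⟨0, h⟩)⟩

theorem ev_av {ψ : Fin (P.z ^ P.D) → Fin P.N} {i : ℕ} {b : Fin nb} {β : Fin (P.N / P.T i)}
    {p : ℝ} (hp : ∀ ω : P.Sp, av (fun p : (Fin P.x → P.Rr) × P.Sp =>
      ind (∀ a, P.Plc (mix (P.Db i β.val) ω p.2) ψ i β.val (p.1 a))) ≤ p) (ω : P.Om nb) :
    av (fun ω' => ind (P.Ev ψ i b β (mix (P.DD i b β) ω ω'))) ≤ p := by
  classical
  refine le_trans (le_of_eq ?_) (hp (P.flipO ω))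
  rw [← av_marg (X := Fin nb) (Y := Fin P.x) (C := P.Co) (R := P.Rr) (Q := Fin P.Q) b
    (fun r w => ind (∀ a, P.Plc (mix (P.Db i β.val) (P.flipO ω) w) ψ i β.val (r a)))]
  apply av_congr
  intro ω'
  congr 1
  apply propext
  unfold Ev
  apply forall_congr'
  intro a
  have h1 : P.rowsO (mix (P.DD i b β) ω ω') b a = (ω' (Sum.inl (b, a))).1 := by
    unfold rowsO
    have hm1 : (Sum.inl (b, a) : (Fin nb × Fin P.x) ⊕ P.Co) ∈ P.DD i b β := Or.inl ⟨a, rfl⟩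
    rw [mix_mem hm1]
  have h2 : P.flipO (mix (P.DD i b β) ω ω') =
      mix (P.Db i β.val) (P.flipO ω) (fun c => (ω' (Sum.inr c)).2) := by
    funext c
    by_cases hc : c ∈ P.Db i β.val
    · rw [mix_mem hc]
      unfold flipO
      have hm1 : (Sum.inr c : (Fin nb × Fin P.x) ⊕ P.Co) ∈ P.DD i b β := Or.inr ⟨c, hc, rfl⟩
      rw [mix_mem hm1]
    · rw [mix_not_mem hc]
      unfold flipO
      rw [mix_not_mem]
      rintro (⟨a', h⟩ | ⟨c', hc', h⟩)
      · exact absurd h (by simp)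
      · simp only [Sum.inr.injEq] at h
        exact hc (h ▸ hc')
  rw [h1, h2]

/-- the bound for one block and one cell -/
noncomputable def pp (c : ℝ) (i : ℕ) : ℝ :=
  (1 - c * (1 / (4 * (P.Q : ℝ)))) ^ (P.z ^ (P.τ + 1)) +
    (P.z : ℝ) ^ (P.τ + 1) * ((P.T i : ℝ) * ((3 * P.q * P.La : ℕ) : ℝ) ^ P.q *
      (1 / (P.Q : ℝ)) ^ P.q)

theorem pp_nonneg {c : ℝ} (hc1 : c ≤ 1) (i : ℕ) : 0 ≤ P.pp c i := by
  have hQ : (1 : ℝ) ≤ P.Q := by exact_mod_cast P.Q_pos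
  have h1 : 1 / (4 * (P.Q : ℝ)) ≤ 1 := by
    rw [div_le_one (by linarith)]
    linarith
  have h0 : 0 ≤ 1 / (4 * (P.Q : ℝ)) := by positivity
  have h2 : 0 ≤ 1 - c * (1 / (4 * (P.Q : ℝ))) := by nlinarith
  unfold pp
  positivity

open scoped Classical in
theorem exists_om {v : ℕ} (hzb : 2 * (2 * P.D * (P.La + 1) + P.La) + 2 ≤ P.z) {c : ℝ}
    (hc0 : 0 ≤ c) (hc1 : c ≤ 1) (hc : c ≤ cst P)
    (hsum : ∑ i ∈ range P.L, (P.N : ℝ) ^ (P.z ^ P.D) *
      (((nb : ℝ) ^ v / (v.factorial : ℝ)) * (((P.N / P.T i : ℕ) : ℝ) ^ v / (v.factorial : ℝ)) *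
        P.pp c i ^ v) < 1) :
    ∃ ω : P.Om nb, ∀ i < P.L, ∀ ψ : Fin (P.z ^ P.D) → Fin P.N, StrictMono ψ →
      ¬ ∃ (f : Fin v → Fin nb) (g : Fin v → Fin (P.N / P.T i)), StrictMono f ∧ StrictMono g ∧
        ∀ l, P.Ev ψ i (f l) (g l) ω := by
  by_contra hcon
  push Not at hcon
  obtain ⟨bad, hbad⟩ : ∃ bad : ℕ → (Fin (P.z ^ P.D) → Fin P.N) → P.Om nb → Prop,
      ∀ i ψ ω, bad i ψ ω ↔ (StrictMono ψ ∧ ∃ (f : Fin v → Fin nb)
        (g : Fin v → Fin (P.N / P.T i)), StrictMono f ∧ StrictMono g ∧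
        ∀ l, P.Ev ψ i (f l) (g l) ω) := ⟨fun i ψ ω => _, fun _ _ _ => Iff.rfl⟩
  have h1 : ∀ ω : P.Om nb, (1 : ℝ) ≤ ∑ i ∈ range P.L,
      ∑ ψ : Fin (P.z ^ P.D) → Fin P.N, ind (bad i ψ ω) := by
    intro ω
    obtain ⟨i, hi, ψ, hψ, f, g, hf, hg, hfg⟩ := hcon ω
    have h2 : ind (bad i ψ ω) = 1 := ind_pos ((hbad i ψ ω).mpr ⟨hψ, f, g, hf, hg, hfg⟩)
    calc (1 : ℝ) = ind (bad i ψ ω) := h2.symm
      _ ≤ ∑ ψ : Fin (P.z ^ P.D) → Fin P.N, ind (bad i ψ ω) :=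
          Finset.single_le_sum (f := fun ψ => ind (bad i ψ ω)) (fun _ _ => ind_nonneg _)
            (mem_univ ψ)
      _ ≤ _ := Finset.single_le_sum
          (f := fun i => ∑ ψ : Fin (P.z ^ P.D) → Fin P.N, ind (bad i ψ ω))
          (fun _ _ => Finset.sum_nonneg (fun _ _ => ind_nonneg _)) (mem_range.mpr hi)
  have h2 := av_mono h1
  rw [av_const, av_sum] at h2
  have h3 : ∀ i ∈ range P.L, av (fun ω : P.Om nb =>
      ∑ ψ : Fin (P.z ^ P.D) → Fin P.N, ind (bad i ψ ω)) ≤ (P.N : ℝ) ^ (P.z ^ P.D) *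
      (((nb : ℝ) ^ v / (v.factorial : ℝ)) * (((P.N / P.T i : ℕ) : ℝ) ^ v / (v.factorial : ℝ)) *
        P.pp c i ^ v) := by
    intro i hi
    rw [mem_range] at hi
    rw [av_sum]
    have h4 : ∀ ψ ∈ (univ : Finset (Fin (P.z ^ P.D) → Fin P.N)),
        av (fun ω : P.Om nb => ind (bad i ψ ω)) ≤
        ((nb : ℝ) ^ v / (v.factorial : ℝ)) * (((P.N / P.T i : ℕ) : ℝ) ^ v / (v.factorial : ℝ)) *
        P.pp c i ^ v := by
      intro ψ _
      have hpp := P.pp_nonneg hc1 i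
      by_cases hψ : StrictMono ψ
      · obtain ⟨F⟩ := P.exists_prof hzb ψ hψ hi
        refine le_trans (av_mono (fun ω => ind_mono ?_)) (unionA (v := v) (P.Ev ψ i) (P.DD i)
          hpp ?_ ?_)
        · intro h
          exact ((hbad i ψ ω).mp h).2
        · intro b b' β β' hb hβ ω ω'
          exact P.ev_out ψ i b b' β β' hb hβ ω ω'
        · intro b β ω
          apply P.ev_av
          intro ω0
          exact P.block hi F β.2 hc0 hc1 hc ω0
      · have : ∀ ω : P.Om nb, ind (bad i ψ ω) = 0 := by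
          intro ω
          apply ind_neg
          intro h
          exact hψ ((hbad i ψ ω).mp h).1
        simp only [this]
        rw [av_const]
        positivity
    refine (Finset.sum_le_sum h4).trans (le_of_eq ?_)
    rw [Finset.sum_const, Finset.card_univ, nsmul_eq_mul]
    simp only [Fintype.card_fun, Fintype.card_fin]
    push_cast
    ring
  have h4 := h2.trans (Finset.sum_le_sum h3)
  linarith

/-- the matrix -/
def MM (ω : P.Om nb) (n' : ℕ) (a b : Fin n') : Prop :=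
  ∃ (h : a.val < nb * P.x) (c : Fin 3 × Fin P.q),
    lfN (P.rowsO ω ⟨a.val / P.x, Nat.div_lt_of_lt_mul (by rw [mul_comm]; exact h)⟩
      ⟨a.val % P.x, Nat.mod_lt _ (pow_pos P.zpos _)⟩) c = b.val

theorem MM_rows (ω : P.Om nb) (n' : ℕ) (a : Fin n') :
    {b | P.MM ω n' a b}.ncard ≤ 3 * P.q := by
  classical
  by_cases h : a.val < nb * P.x
  · set r := P.rowsO ω ⟨a.val / P.x, Nat.div_lt_of_lt_mul (by rw [mul_comm]; exact h)⟩
      ⟨a.val % P.x, Nat.mod_lt _ (pow_pos P.zpos _)⟩ with hr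
    calc {b | P.MM ω n' a b}.ncard ≤
          ((univ.image (fun c : Fin 3 × Fin P.q => lfN r c) : Finset ℕ) : Set ℕ).ncard := by
          apply Set.ncard_le_ncard_of_injOn (fun b : Fin n' => b.val)
          · rintro b ⟨_, c, hc⟩
            simp only [coe_image, coe_univ, Set.image_univ, Set.mem_range]
            exact ⟨c, hc⟩
          · intro b _ b' _ hbb
            exact Fin.ext hbb
      _ ≤ 3 * P.q := by
          rw [Set.ncard_coe_finset]
          refine card_image_le.trans (le_of_eq ?_)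
          rw [card_univ, Fintype.card_prod, Fintype.card_fin, Fintype.card_fin]
  · have : {b | P.MM ω n' a b} = ∅ := by
      ext b
      simp only [Set.mem_ofPred_eq, Set.mem_empty_iff_false, iff_false]
      rintro ⟨h', _⟩
      exact h h'
    rw [this, Set.ncard_empty]
    exact Nat.zero_le _

theorem no_copy {v n' : ℕ} (ω : P.Om nb) (hn : nb * P.x ≤ n') (hm : P.z ^ P.D ≤ n')
    (hcount : 2 * P.x * (P.N / P.T (P.L - 1)) + (P.L - 1) * (v * P.z ^ P.ρ * (2 * P.x)) +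
      v * P.T 0 < nb * P.x)
    (H : ∀ i < P.L, ∀ ψ : Fin (P.z ^ P.D) → Fin P.N, StrictMono ψ →
      ¬ ∃ (f : Fin v → Fin nb) (g : Fin v → Fin (P.N / P.T i)), StrictMono f ∧ StrictMono g ∧
        ∀ l, P.Ev ψ i (f l) (g l) ω) :
    ¬ Pool.Agent.H68.RS.HasMonoCopy (P.MM ω n')
      (fun x y => decide (P.col (P.flipO ω) x y = 1)) := by
  rintro ⟨t, f0, g0, hf0, hg0, hcol⟩
  obtain ⟨ψ, hψd⟩ : ∃ ψ : Fin (P.z ^ P.D) → Fin P.N, ∀ b, ψ b = g0 (Fin.castLE hm b) :=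
    ⟨_, fun _ => rfl⟩
  obtain ⟨φ, hφd⟩ : ∃ φ : Fin (nb * P.x) → Fin P.N, ∀ a, φ a = f0 (Fin.castLE hn a) :=
    ⟨_, fun _ => rfl⟩
  have hψ : StrictMono ψ := by
    intro a b hab
    rw [hψd, hψd]
    exact hg0 hab
  have hφ : StrictMono φ := by
    intro a b hab
    rw [hφd, hφd]
    exact hf0 hab
  have hxpos : 0 < P.x := pow_pos P.zpos _
  have hLL : P.L - 1 < P.L := by have := P.hL; omega
  have hcnt := count (n := nb * P.x) (nb := nb) (x := P.x) (v := v) (L := P.L) (w := P.z ^ P.ρ)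
    (K := P.N / P.T (P.L - 1)) P.T hxpos rfl (P.T_pos 0) (pow_pos P.zpos _) (by
      intro i
      unfold T
      rw [← pow_add]
      congr 1
      ring) P.hL (fun a => (φ a).val) (fun a b hab => hφ hab) (by
      intro a
      rw [Nat.div_mul_cancel (P.T_dvd_N hLL)]
      exact (φ a).2) (by
      intro i hi
      rintro ⟨f, g, hf, hg, hfn, hfg⟩
      have hbl : ∀ l, f l * P.x < nb * P.x := fun l => Nat.mul_lt_mul_of_pos_right (hfn l) hxpos
      have hgN : ∀ l, g l < P.N / P.T i := by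
        intro l
        have h1 := hfg l ⟨f l * P.x, hbl l⟩ (Nat.mul_div_cancel _ hxpos)
        rw [← h1]
        exact Nat.div_lt_div_of_lt_of_dvd (P.T_dvd_N hi) (φ _).2
      apply H i hi ψ hψ
      refine ⟨fun l => ⟨f l, hfn l⟩, fun l => ⟨g l, hgN l⟩, fun a b hab => hf hab,
        fun a b hab => hg hab, ?_⟩
      intro l a
      have hlt : f l * P.x + a.val < nb * P.x := by
        have h1 : (f l + 1) * P.x ≤ nb * P.x := Nat.mul_le_mul_right _ (hfn l)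
        have h2 := a.2
        rw [add_mul, one_mul] at h1
        omega
      have hdiv : (f l * P.x + a.val) / P.x = f l := by
        rw [mul_comm, Nat.mul_add_div hxpos, Nat.div_eq_of_lt a.2, add_zero]
      have hmod : (f l * P.x + a.val) % P.x = a.val := by
        rw [mul_comm, Nat.mul_add_mod, Nat.mod_eq_of_lt a.2]
      refine ⟨φ ⟨f l * P.x + a.val, hlt⟩, hfg l _ hdiv, if t then 1 else 0, ?_⟩
      intro c
      have hlm := lfN_lt P.zpos (P.rowsO ω ⟨f l, hfn l⟩ a) c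
      have hM : P.MM ω n' (Fin.castLE hn ⟨f l * P.x + a.val, hlt⟩)
          (Fin.castLE hm ⟨lfN (P.rowsO ω ⟨f l, hfn l⟩ a) c, hlm⟩) := by
        refine ⟨hlt, c, ?_⟩
        simp only [Fin.val_castLE]
        congr 2
        · exact Fin.ext hdiv
        · exact Fin.ext hmod
      have h1 := hcol _ _ hM
      rw [← hφd, ← hψd] at h1
      have h2 : P.lf (P.rowsO ω ⟨f l, hfn l⟩ a) c =
          ⟨lfN (P.rowsO ω ⟨f l, hfn l⟩ a) c, hlm⟩ := rfl
      rw [h2]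
      have key : ∀ (t : Bool) (w : ZMod 2), decide (w = 1) = t → w = if t then 1 else 0 := by
        decide
      exact key t _ h1)
  omega

theorem lower {v n' : ℕ} (hzb : 2 * (2 * P.D * (P.La + 1) + P.La) + 2 ≤ P.z) {c : ℝ}
    (hc0 : 0 ≤ c) (hc1 : c ≤ 1) (hc : c ≤ cst P)
    (hsum : ∑ i ∈ range P.L, (P.N : ℝ) ^ (P.z ^ P.D) *
      (((nb : ℝ) ^ v / (v.factorial : ℝ)) * (((P.N / P.T i : ℕ) : ℝ) ^ v / (v.factorial : ℝ)) *
        P.pp c i ^ v) < 1)
    (hn : nb * P.x ≤ n') (hm : P.z ^ P.D ≤ n')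
    (hcount : 2 * P.x * (P.N / P.T (P.L - 1)) + (P.L - 1) * (v * P.z ^ P.ρ * (2 * P.x)) +
      v * P.T 0 < nb * P.x) :
    P.N < Pool.Agent.H68.RS.f (3 * P.q) n' := by
  obtain ⟨ω, hω⟩ := P.exists_om hzb hc0 hc1 hc hsum
  have hn1 : 1 ≤ n' := le_trans (pow_pos P.zpos P.D) hm
  have h1 := lt_R hn1 (P.MM_rows ω n') (P.no_copy ω hn hm hcount hω)
  exact lt_of_lt_of_le h1 (le_f hn1 (P.MM_rows ω n'))

end Par

end Pool.Agent.H76.LX
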