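import Mathlib

/-! The pattern of class flips. -/

namespace Pool.Agent.H76.LX

open Finset

/-- number of leaves of the class `j` with `a = 1` -/
def patAl {q : ℕ} (a : Fin 3 × Fin q → ZMod 2) (j : Fin 3) : ℕ :=
  (univ.filter (fun l : Fin q => a (j, l) = 1)).card

theorem patAl_le {q : ℕ} (a : Fin 3 × Fin q → ZMod 2) (j : Fin 3) : patAl a j ≤ q := by
  unfold patAl
  exact (Finset.card_le_univ _).trans (by simp)

theorem pat_z2 (x : ZMod 2) : x + 1 = 1 ↔ ¬ x = 1 := by
  revert x; decide

theorem pat_flip {q : ℕ} (a : Fin 3 × Fin q → ZMod 2) (j : Fin 3) :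
    (univ.filter (fun l : Fin q => a (j, l) + 1 = 1)).card = q - patAl a j := by
  have h1 : (univ.filter (fun l : Fin q => a (j, l) + 1 = 1)) =
      univ.filter (fun l : Fin q => ¬ a (j, l) = 1) := by
    apply Finset.filter_congr
    intro l _
    exact pat_z2 _
  have h2 := Finset.card_filter_add_card_filter_not (s := (univ : Finset (Fin q)))
    (fun l : Fin q => a (j, l) = 1)
  rw [h1]
  unfold patAl
  simp only [Finset.card_univ, Fintype.card_fin] at h2
  omega

theorem pat_cnt {q : ℕ} (a : Fin 3 × Fin q → ZMod 2) (f : Fin 3 → ZMod 2) :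
    (univ.filter (fun c : Fin 3 × Fin q => a c + f c.1 = 1)).card =
      ∑ j : Fin 3, (univ.filter (fun l : Fin q => a (j, l) + f j = 1)).card := by
  rw [Finset.card_filter, Fintype.sum_prod_type]
  apply Finset.sum_congr rfl
  intro j _
  rw [Finset.card_filter]

theorem pat_class {q : ℕ} (a : Fin 3 × Fin q → ZMod 2) (j0 : Fin 3) :
    (univ.filter (fun c : Fin 3 × Fin q =>
      a c + (Pi.single j0 1 : Fin 3 → ZMod 2) c.1 = 1)).card =
      ∑ j : Fin 3, (if j = j0 then q - patAl a j else patAl a j) := by
  rw [pat_cnt]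
  apply Finset.sum_congr rfl
  intro j _
  by_cases h : j = j0
  · subst h
    simp only [Pi.single_eq_same, if_true]
    exact pat_flip a j
  · rw [if_neg h, Pi.single_eq_of_ne h]
    simp only [add_zero]
    rfl

/-- adding `0` or the indicator of one class makes the number of odd leaves lie in `[q, 2 q]` -/
theorem pattern {q : ℕ} (a : Fin 3 × Fin q → ZMod 2) :
    ∃ f : Fin 3 → ZMod 2, (∀ j j', f j = 1 → f j' = 1 → j = j') ∧
      q ≤ (univ.filter (fun c : Fin 3 × Fin q => a c + f c.1 = 1)).card ∧
      (univ.filter (fun c : Fin 3 × Fin q => a c + f c.1 = 1)).card ≤ 2 * q := by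
  have h0 := patAl_le a 0
  have h1 := patAl_le a 1
  have h2 := patAl_le a 2
  have hS : (univ.filter (fun c : Fin 3 × Fin q => a c + (0 : Fin 3 → ZMod 2) c.1 = 1)).card =
      patAl a 0 + patAl a 1 + patAl a 2 := by
    rw [pat_cnt, Fin.sum_univ_three]
    simp only [Pi.zero_apply, add_zero]
    rfl
  by_cases hz : q ≤ patAl a 0 + patAl a 1 + patAl a 2 ∧
      patAl a 0 + patAl a 1 + patAl a 2 ≤ 2 * q
  · refine ⟨0, ?_, ?_, ?_⟩
    · intro j j' hj
      simp at hj
    · rw [hS]; exact hz.1
    · rw [hS]; exact hz.2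
  · have key : ∃ j0 : Fin 3,
        q ≤ (∑ j : Fin 3, (if j = j0 then q - patAl a j else patAl a j)) ∧
        (∑ j : Fin 3, (if j = j0 then q - patAl a j else patAl a j)) ≤ 2 * q := by
      have e0 : (∑ j : Fin 3, (if j = (0 : Fin 3) then q - patAl a j else patAl a j)) =
          (q - patAl a 0) + patAl a 1 + patAl a 2 := by
        rw [Fin.sum_univ_three]; simp
      have e1 : (∑ j : Fin 3, (if j = (1 : Fin 3) then q - patAl a j else patAl a j)) =
          patAl a 0 + (q - patAl a 1) + patAl a 2 := by
        rw [Fin.sum_univ_three]; simp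
      have e2 : (∑ j : Fin 3, (if j = (2 : Fin 3) then q - patAl a j else patAl a j)) =
          patAl a 0 + patAl a 1 + (q - patAl a 2) := by
        rw [Fin.sum_univ_three]; simp
      by_contra hcon
      push Not at hcon
      have c0 := hcon 0
      have c1 := hcon 1
      have c2 := hcon 2
      rw [e0] at c0
      rw [e1] at c1
      rw [e2] at c2
      generalize patAl a 0 = x at *
      generalize patAl a 1 = y at *
      generalize patAl a 2 = w at *
      omega
    obtain ⟨j0, k1, k2⟩ := key
    refine ⟨Pi.single j0 1, ?_, ?_, ?_⟩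
    · intro j j' hj hj'
      have a1 : j = j0 := by
        by_contra hne
        rw [Pi.single_eq_of_ne hne] at hj
        exact absurd hj (by decide)
      have a2 : j' = j0 := by
        by_contra hne
        rw [Pi.single_eq_of_ne hne] at hj'
        exact absurd hj' (by decide)
      rw [a1, a2]
    · rw [pat_class]; exact k1
    · rw [pat_class]; exact k2

end Pool.Agent.H76.LX

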