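import Pool.Agent.H76.LX.Defs

/-! A random row is in good position with positive probability. -/

namespace Pool.Agent.H76.LX

open Finset Pool.Agent.H46.SR Pool.Agent.H46.TS

/-- the point of the block of `X` with the residue of `Y` -/
def tuple_pf {m l : ℕ} (hl : 0 < l) (hd : l ∣ m) (X Y : Fin m) : Fin m :=
  ⟨pl l X.val Y.val, pl_lt hl hd X.2 _⟩

theorem tuple_swap {l : ℕ} (hl : 0 < l) (X Y : ℕ) : pl l (pl l X Y) (pl l Y X) = X := by
  show pl l X Y / l * l + pl l Y X % l = X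
  rw [pl_div hl, pl_mod, Nat.div_add_mod']

theorem tuple_assoc {l a : ℕ} (hl : 0 < l) (X Y c : ℕ) :
    pl l (pl (l * a) X Y) c = pl (l * a) X (pl l Y c) := by
  have e1 : pl l (pl (l * a) X Y) c =
      (X / (l * a) * (l * a) + Y % (l * a)) / l * l + c % l := rfl
  have e2 : pl (l * a) X (pl l Y c) = X / (l * a) * (l * a) + (pl l Y c) % (l * a) := rfl
  have e3 : (X / (l * a) * (l * a) + Y % (l * a)) / l = X / (l * a) * a + Y / l % a := by
    have : X / (l * a) * (l * a) = l * (X / (l * a) * a) := by ring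
    rw [this, Nat.mul_add_div hl, Nat.mod_mul_right_div_self]
  rw [e1, e2, e3, Nat.mod_mul, pl_div hl, pl_mod]
  ring

theorem tuple_pf_assoc {m l1 l2 : ℕ} (hl1 : 0 < l1) (hl2 : 0 < l2) (hd : l1 ∣ l2) (hd2 : l2 ∣ m)
    (X Y c : Fin m) : tuple_pf hl1 (hd.trans hd2) (tuple_pf hl2 hd2 X Y) c =
      tuple_pf hl2 hd2 X (tuple_pf hl1 (hd.trans hd2) Y c) := by
  obtain ⟨a, rfl⟩ := hd
  apply Fin.ext
  exact tuple_assoc hl1 _ _ _

theorem tuple_u1 {m l : ℕ} (hl : 0 < l) (hd : l ∣ m) (hm : 0 < m) (g : Fin m → ℝ) :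
    av (fun X => av (fun Y => g (tuple_pf hl hd X Y))) = av g := by
  have : Nonempty (Fin m) := ⟨⟨0, hm⟩⟩
  have hsw : ∀ X Y : Fin m, tuple_pf hl hd (tuple_pf hl hd X Y) (tuple_pf hl hd Y X) = X := by
    intro X Y
    apply Fin.ext
    exact tuple_swap hl _ _
  have h1 := av_equiv (⟨fun p => (tuple_pf hl hd p.1 p.2, tuple_pf hl hd p.2 p.1),
    fun p => (tuple_pf hl hd p.1 p.2, tuple_pf hl hd p.2 p.1),
    fun p => Prod.ext (hsw _ _) (hsw _ _), fun p => Prod.ext (hsw _ _) (hsw _ _)⟩ :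
    Fin m × Fin m ≃ Fin m × Fin m) (fun p : Fin m × Fin m => g p.1)
  rw [av_prod, av_prod] at h1
  refine h1.trans ?_
  apply av_congr
  intro X
  exact av_const (g X)

theorem tuple_u2 {m l1 l2 : ℕ} (hl1 : 0 < l1) (hl2 : 0 < l2) (hd : l1 ∣ l2) (hd2 : l2 ∣ m)
    (hm : 0 < m) (X : Fin m) (g : Fin m → ℝ) :
    av (fun Y => av (fun c => g (tuple_pf hl1 (hd.trans hd2) (tuple_pf hl2 hd2 X Y) c))) =
      av (fun Y => g (tuple_pf hl2 hd2 X Y)) := by
  rw [← tuple_u1 hl1 (hd.trans hd2) hm (fun Y => g (tuple_pf hl2 hd2 X Y))]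
  apply av_congr
  intro Y
  apply av_congr
  intro c
  rw [tuple_pf_assoc hl1 hl2 hd hd2]

theorem tuple_comm {A B : Type*} [Fintype A] [Fintype B] (f : A → B → ℝ) :
    av (fun a => av (fun b => f a b)) = av (fun b => av (fun a => f a b)) := by
  have h1 := av_prod (fun p : A × B => f p.1 p.2)
  have h2 := av_prod (fun p : B × A => f p.2 p.1)
  rw [← h1, ← h2]
  exact (av_equiv (Equiv.prodComm B A) (fun p : A × B => f p.1 p.2)).symm

theorem tuple_pair {ι B : Type*} [Fintype ι] [DecidableEq ι] [Fintype B] [Nonempty B] {i i' : ι}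
    (h : i ≠ i') (f : B → B → ℝ) :
    av (fun ω : ι → B => f (ω i) (ω i')) = av (fun a => av (fun b => f a b)) := by
  have hinj : Function.Injective (fun c : Fin 2 => if c = 0 then i else i') := by
    intro a b hab
    fin_cases a <;> fin_cases b
    · rfl
    · simp at hab
      exact absurd hab h
    · simp at hab
      exact absurd hab.symm h
    · rfl
  have h1 := av_comp_inj (C := Fin 2) (D := ι) (B := B) _ hinj (fun ω => f (ω 0) (ω 1))
  simp only [if_true, one_ne_zero, if_false] at h1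
  rw [h1]
  have h2 := av_equiv (finTwoArrowEquiv B) (fun p : B × B => f p.1 p.2)
  rw [av_prod] at h2
  exact h2

theorem tuple_jensen {A : Type*} [Fintype A] [Nonempty A] {f : A → ℝ} (hf : ∀ a, 0 ≤ f a)
    (n : ℕ) : av f ^ n ≤ av (fun a => f a ^ n) := by
  have hc : (0 : ℝ) < (Fintype.card A : ℝ) := by exact_mod_cast Fintype.card_pos (α := A)
  have h := Real.pow_arith_mean_le_arith_mean_pow (univ : Finset A)
    (fun _ => 1 / (Fintype.card A : ℝ)) f (fun _ _ => by positivity)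
    (by rw [Finset.sum_const, Finset.card_univ, nsmul_eq_mul]; field_simp) (fun a _ => hf a) n
  have e1 : ∀ g : A → ℝ, av g = ∑ a, 1 / (Fintype.card A : ℝ) * g a := by
    intro g
    unfold av
    rw [← Finset.mul_sum]
    ring
  rw [e1, e1]
  exact h

theorem tuple_mod {m l : ℕ} (hd : l ∣ m) (hm : 0 < m) (ρ : ℕ) :
    av (fun Y : Fin m => ind (Y.val % l = ρ)) ≤ 1 / (l : ℝ) := by
  obtain ⟨q, hq⟩ := hd
  rw [mul_comm] at hq
  subst hq
  exact av_mod_le (Nat.pos_of_mul_pos_right hm)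

theorem tuple_blk {m l : ℕ} (hl : 0 < l) (hd : l ∣ m) (hm : 0 < m) (X : Fin m)
    (P : Fin m → Prop) [DecidablePred P] :
    av (fun Y => ind (P (tuple_pf hl hd X Y))) ≤ ((univ.filter P).card : ℝ) / l := by
  have : Nonempty (Fin m) := ⟨⟨0, hm⟩⟩
  have h1 : ∀ Y : Fin m, ind (P (tuple_pf hl hd X Y)) ≤
      ∑ b ∈ univ.filter P, ind (Y.val % l = b.val % l) := by
    intro Y
    by_cases h : P (tuple_pf hl hd X Y)
    · rw [ind_pos h]
      have h2 : ind (Y.val % l = (tuple_pf hl hd X Y).val % l) = 1 := by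
        apply ind_pos
        show _ = pl l X.val Y.val % l
        rw [pl_mod]
      rw [← h2]
      exact Finset.single_le_sum (f := fun b : Fin m => ind (Y.val % l = b.val % l))
        (fun b _ => ind_nonneg _) (mem_filter.mpr ⟨mem_univ _, h⟩)
    · rw [ind_neg h]
      exact Finset.sum_nonneg (fun b _ => ind_nonneg _)
  refine (av_mono h1).trans ?_
  rw [av_sum]
  have h2 : ∀ b ∈ univ.filter P, av (fun Y : Fin m => ind (Y.val % l = b.val % l)) ≤
      1 / (l : ℝ) := by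
    intro b _
    exact tuple_mod hd hm _
  refine (Finset.sum_le_card_nsmul _ _ _ h2).trans (le_of_eq ?_)
  rw [nsmul_eq_mul]
  ring

section
variable {m l1 l2 q : ℕ} (hl1 : 0 < l1) (hl2 : 0 < l2) (hd : l1 ∣ l2) (hd2 : l2 ∣ m)

/-- a leaf -/
def tuple_L (p : (Fin m × (Fin 3 → Fin m)) × (Fin 3 × Fin q → Fin m)) (c : Fin 3 × Fin q) :
    Fin m :=
  tuple_pf hl1 (hd.trans hd2) (tuple_pf hl2 hd2 p.1.1 (p.1.2 c.1)) (p.2 c)

theorem tuple_all (hm : 0 < m) (P : Fin m → Prop) :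
    (av (fun x => ind (P x))) ^ (3 * q) ≤
      av (fun p : (Fin m × (Fin 3 → Fin m)) × (Fin 3 × Fin q → Fin m) =>
        ind (∀ c, P (tuple_L hl1 hl2 hd hd2 p c))) := by
  have : Nonempty (Fin m) := ⟨⟨0, hm⟩⟩
  obtain ⟨F, hF⟩ : ∃ F : Fin m → ℝ, F = fun B =>
    av (fun y => ind (P (tuple_pf hl1 (hd.trans hd2) B y))) := ⟨_, rfl⟩
  have hF0 : ∀ B, 0 ≤ F B := by
    intro B
    rw [hF]
    exact av_nonneg (fun _ => ind_nonneg _)
  have hFa : av F = av (fun x => ind (P x)) := by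
    rw [hF]
    exact tuple_u1 hl1 (hd.trans hd2) hm (fun x => ind (P x))
  have hFb : av (fun X => av (fun Y => F (tuple_pf hl2 hd2 X Y))) = av F :=
    tuple_u1 hl2 hd2 hm F
  rw [av_prod, av_prod]
  have h1 : ∀ b0 : Fin m, ∀ b1 : Fin 3 → Fin m,
      av (fun ω : Fin 3 × Fin q → Fin m =>
        ind (∀ c, P (tuple_L hl1 hl2 hd hd2 ((b0, b1), ω) c))) =
      ∏ j : Fin 3, F (tuple_pf hl2 hd2 b0 (b1 j)) ^ q := by
    intro b0 b1
    have e1 : ∀ ω : Fin 3 × Fin q → Fin m,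
        ind (∀ c, P (tuple_L hl1 hl2 hd hd2 ((b0, b1), ω) c)) =
        ∏ c : Fin 3 × Fin q, (fun (c : Fin 3 × Fin q) (y : Fin m) =>
          ind (P (tuple_pf hl1 (hd.trans hd2) (tuple_pf hl2 hd2 b0 (b1 c.1)) y))) c (ω c) := by
      intro ω
      rw [ind_forall]
      rfl
    rw [av_congr e1]
    refine (av_pi_prod (fun (c : Fin 3 × Fin q) (y : Fin m) =>
          ind (P (tuple_pf hl1 (hd.trans hd2) (tuple_pf hl2 hd2 b0 (b1 c.1)) y)))).trans ?_
    have e2 : ∀ c : Fin 3 × Fin q, av ((fun (c : Fin 3 × Fin q) (y : Fin m) =>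
          ind (P (tuple_pf hl1 (hd.trans hd2) (tuple_pf hl2 hd2 b0 (b1 c.1)) y))) c) =
          F (tuple_pf hl2 hd2 b0 (b1 c.1)) := by
      intro c
      rw [hF]
    rw [Finset.prod_congr rfl (fun c _ => e2 c), Fintype.prod_prod_type]
    apply Finset.prod_congr rfl
    intro j _
    show ∏ _y : Fin q, F (tuple_pf hl2 hd2 b0 (b1 j)) = _
    rw [Finset.prod_const, Finset.card_univ, Fintype.card_fin]
  have h2 : ∀ b0 : Fin m, av (fun b1 : Fin 3 → Fin m => av (fun ω : Fin 3 × Fin q → Fin m =>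
        ind (∀ c, P (tuple_L hl1 hl2 hd hd2 ((b0, b1), ω) c)))) =
      (av (fun y => F (tuple_pf hl2 hd2 b0 y) ^ q)) ^ 3 := by
    intro b0
    rw [av_congr (h1 b0), av_pi_prod (fun (_ : Fin 3) (y : Fin m) =>
      F (tuple_pf hl2 hd2 b0 y) ^ q), Finset.prod_const, Finset.card_univ, Fintype.card_fin]
  rw [av_congr h2, ← hFa, ← hFb]
  refine (tuple_jensen (fun X => av_nonneg (fun Y => hF0 _)) (3 * q)).trans ?_
  apply av_mono
  intro b0
  rw [mul_comm 3 q, pow_mul]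
  exact pow_le_pow_left₀ (pow_nonneg (av_nonneg (fun Y => hF0 _)) _)
    (tuple_jensen (fun Y => hF0 _) q) 3

theorem tuple_one (hm : 0 < m) (g : Fin m → ℝ) (c : Fin 3 × Fin q) :
    av (fun p : (Fin m × (Fin 3 → Fin m)) × (Fin 3 × Fin q → Fin m) =>
        g (tuple_L hl1 hl2 hd hd2 p c)) = av g := by
  have : Nonempty (Fin m) := ⟨⟨0, hm⟩⟩
  rw [av_prod, av_prod]
  have h1 : ∀ b0 : Fin m, ∀ b1 : Fin 3 → Fin m,
      av (fun ω : Fin 3 × Fin q → Fin m => g (tuple_L hl1 hl2 hd hd2 ((b0, b1), ω) c)) =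
      (fun b : Fin m => av (fun y => g (tuple_pf hl1 (hd.trans hd2) (tuple_pf hl2 hd2 b0 b) y)))
        (b1 c.1) := by
    intro b0 b1
    exact av_coord c (fun y => g (tuple_pf hl1 (hd.trans hd2) (tuple_pf hl2 hd2 b0 (b1 c.1)) y))
  have h2 : ∀ b0 : Fin m, av (fun b1 : Fin 3 → Fin m =>
      av (fun ω : Fin 3 × Fin q → Fin m => g (tuple_L hl1 hl2 hd hd2 ((b0, b1), ω) c))) =
      av (fun b => g (tuple_pf hl2 hd2 b0 b)) := by
    intro b0
    rw [av_congr (h1 b0)]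
    refine (av_coord c.1 (fun b : Fin m => av (fun y =>
      g (tuple_pf hl1 (hd.trans hd2) (tuple_pf hl2 hd2 b0 b) y)))).trans ?_
    exact tuple_u2 hl1 hl2 hd hd2 hm b0 g
  rw [av_congr h2]
  exact tuple_u1 hl2 hd2 hm g

/-- two leaves of one class -/
theorem tuple_A {V : Type*} [DecidableEq V] (hm : 0 < m) {z : ℕ} (hz : 0 < z)
    (TT : Finset (Fin m)) (e : Fin m → V)
    (h1 : ∀ b ∈ TT, (univ.filter (fun b' => e b' = e b)).card * z ≤ l1)
    {c c' : Fin 3 × Fin q} (hc : c ≠ c') (hcc : c.1 = c'.1) :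
    av (fun p : (Fin m × (Fin 3 → Fin m)) × (Fin 3 × Fin q → Fin m) =>
        ind (tuple_L hl1 hl2 hd hd2 p c ∈ TT ∧
          e (tuple_L hl1 hl2 hd hd2 p c') = e (tuple_L hl1 hl2 hd hd2 p c))) ≤ 1 / (z : ℝ) := by
  have : Nonempty (Fin m) := ⟨⟨0, hm⟩⟩
  rw [av_prod]
  refine (av_mono (fun p1 => ?_)).trans (av_const (1 / (z : ℝ))).le
  have e1 := tuple_pair hc (fun a b : Fin m =>
    ind (tuple_pf hl1 (hd.trans hd2) (tuple_pf hl2 hd2 p1.1 (p1.2 c.1)) a ∈ TT ∧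
      e (tuple_pf hl1 (hd.trans hd2) (tuple_pf hl2 hd2 p1.1 (p1.2 c'.1)) b) =
      e (tuple_pf hl1 (hd.trans hd2) (tuple_pf hl2 hd2 p1.1 (p1.2 c.1)) a)))
  refine (le_of_eq e1).trans ?_
  refine (av_mono (fun a => ?_)).trans (av_const (1 / (z : ℝ))).le
  by_cases ha : tuple_pf hl1 (hd.trans hd2) (tuple_pf hl2 hd2 p1.1 (p1.2 c.1)) a ∈ TT
  · obtain ⟨x, hx⟩ : ∃ x, x = tuple_pf hl1 (hd.trans hd2) (tuple_pf hl2 hd2 p1.1 (p1.2 c.1)) a :=
      ⟨_, rfl⟩
    rw [← hx] at ha ⊢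
    refine (av_mono (fun b => ind_mono (fun h => h.2))).trans ?_
    refine (tuple_blk hl1 (hd.trans hd2) hm _ (fun b' => e b' = e x)).trans ?_
    have h2 := h1 x ha
    have hz' : (0 : ℝ) < z := by exact_mod_cast hz
    have hl' : (0 : ℝ) < l1 := by exact_mod_cast hl1
    have h2' : ((univ.filter (fun b' => e b' = e x)).card : ℝ) * z ≤ l1 := by exact_mod_cast h2
    rw [div_le_div_iff₀ hl' hz']
    linarith
  · refine (av_mono (g := fun _ => (0 : ℝ)) (fun b => le_of_eq (ind_neg (fun h => ha h.1)))).trans ?_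
    rw [av_const]
    positivity

/-- two leaves of different classes -/
theorem tuple_B {V : Type*} [DecidableEq V] (hm : 0 < m) {z : ℕ} (hz : 0 < z)
    (TT : Finset (Fin m)) (e : Fin m → V)
    (h1 : ∀ b ∈ TT, (univ.filter (fun b' => e b' = e b)).card * z ≤ l2)
    {c c' : Fin 3 × Fin q} (hcc : c.1 ≠ c'.1) :
    av (fun p : (Fin m × (Fin 3 → Fin m)) × (Fin 3 × Fin q → Fin m) =>
        ind (tuple_L hl1 hl2 hd hd2 p c ∈ TT ∧
          e (tuple_L hl1 hl2 hd hd2 p c') = e (tuple_L hl1 hl2 hd hd2 p c))) ≤ 1 / (z : ℝ) := by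
  have : Nonempty (Fin m) := ⟨⟨0, hm⟩⟩
  have hc : c ≠ c' := fun h => hcc (by rw [h])
  rw [av_prod, av_prod]
  refine (av_mono (fun b0 => ?_)).trans (av_const (1 / (z : ℝ))).le
  obtain ⟨H, hH⟩ : ∃ H : Fin m → Fin m → Fin m → Fin m → ℝ, H = fun x a y b =>
    ind (tuple_pf hl1 (hd.trans hd2) (tuple_pf hl2 hd2 b0 x) a ∈ TT ∧
      e (tuple_pf hl1 (hd.trans hd2) (tuple_pf hl2 hd2 b0 y) b) =
      e (tuple_pf hl1 (hd.trans hd2) (tuple_pf hl2 hd2 b0 x) a)) := ⟨_, rfl⟩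
  have e1 : ∀ b1 : Fin 3 → Fin m, av (fun ω : Fin 3 × Fin q → Fin m =>
      ind (tuple_L hl1 hl2 hd hd2 ((b0, b1), ω) c ∈ TT ∧
          e (tuple_L hl1 hl2 hd hd2 ((b0, b1), ω) c') =
            e (tuple_L hl1 hl2 hd hd2 ((b0, b1), ω) c))) =
      av (fun a => av (fun b => H (b1 c.1) a (b1 c'.1) b)) := by
    intro b1
    rw [← tuple_pair hc (fun a b => H (b1 c.1) a (b1 c'.1) b), hH]
    rfl
  rw [av_congr e1, tuple_pair hcc (fun x y => av (fun a => av (fun b => H x a y b)))]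
  have e2 : ∀ x, av (fun y => av (fun a => av (fun b => H x a y b))) =
      av (fun a => av (fun y => av (fun b => H x a y b))) := by
    intro x
    exact tuple_comm (fun y a => av (fun b => H x a y b))
  rw [av_congr e2]
  refine (av_mono (fun x => ?_)).trans (av_const (1 / (z : ℝ))).le
  refine (av_mono (fun a => ?_)).trans (av_const (1 / (z : ℝ))).le
  rw [hH]
  beta_reduce
  by_cases ha : tuple_pf hl1 (hd.trans hd2) (tuple_pf hl2 hd2 b0 x) a ∈ TT
  · obtain ⟨v, hv⟩ : ∃ v, v = tuple_pf hl1 (hd.trans hd2) (tuple_pf hl2 hd2 b0 x) a :=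
      ⟨_, rfl⟩
    rw [← hv] at ha ⊢
    refine (av_mono (fun y => av_mono (fun b => ind_mono (fun h => h.2)))).trans ?_
    rw [tuple_u2 hl1 hl2 hd hd2 hm b0 (fun b' => ind (e b' = e v))]
    refine (tuple_blk hl2 hd2 hm _ (fun b' => e b' = e v)).trans ?_
    have h2 := h1 v ha
    have hz' : (0 : ℝ) < z := by exact_mod_cast hz
    have hl' : (0 : ℝ) < l2 := by exact_mod_cast hl2
    have h2' : ((univ.filter (fun b' => e b' = e v)).card : ℝ) * z ≤ l2 := by exact_mod_cast h2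
    rw [div_le_div_iff₀ hl' hz']
    linarith
  · refine (av_mono (g := fun _ => (0 : ℝ)) (fun y => ?_)).trans ?_
    · refine (av_mono (g := fun _ => (0 : ℝ)) (fun b => le_of_eq (ind_neg (fun h => ha h.1)))).trans ?_
      rw [av_const]
    · rw [av_const]
      positivity

/-- one leaf on the rows used before -/
theorem tuple_C {V : Type*} [DecidableEq V] (hm : 0 < m) {z : ℕ} (hz : 0 < z)
    (TT : Finset (Fin m)) (e : Fin m → V) (R : Finset V) {l n : ℕ}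
    (h1 : ∀ b ∈ TT, (univ.filter (fun b' => e b' = e b)).card * z ≤ l)
    (hn : R.card * l ≤ n * m) (c : Fin 3 × Fin q) :
    av (fun p : (Fin m × (Fin 3 → Fin m)) × (Fin 3 × Fin q → Fin m) =>
        ind (tuple_L hl1 hl2 hd hd2 p c ∈ TT ∧ e (tuple_L hl1 hl2 hd hd2 p c) ∈ R)) ≤
      (n : ℝ) / (z : ℝ) := by
  rw [tuple_one hl1 hl2 hd hd2 hm (fun x => ind (x ∈ TT ∧ e x ∈ R)) c]
  have h2 : (univ.filter (fun x => x ∈ TT ∧ e x ∈ R)).card * z ≤ R.card * l := by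
    have h3 : (univ.filter (fun x => x ∈ TT ∧ e x ∈ R)) ⊆
        R.biUnion (fun v => univ.filter (fun x => x ∈ TT ∧ e x = v)) := by
      intro x hx
      rw [mem_filter] at hx
      rw [mem_biUnion]
      exact ⟨e x, hx.2.2, mem_filter.mpr ⟨mem_univ _, hx.2.1, rfl⟩⟩
    have h4 : ∀ v ∈ R, (univ.filter (fun x => x ∈ TT ∧ e x = v)).card * z ≤ l := by
      intro v _
      rcases (univ.filter (fun x => x ∈ TT ∧ e x = v)).eq_empty_or_nonempty with h0 | h0
      · rw [h0]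
        simp
      · obtain ⟨b, hb⟩ := h0
        rw [mem_filter] at hb
        refine le_trans (Nat.mul_le_mul_right _ (card_le_card ?_)) (h1 b hb.2.1)
        intro x hx
        rw [mem_filter] at hx ⊢
        exact ⟨mem_univ _, by rw [hx.2.2, hb.2.2]⟩
    calc _ ≤ (∑ v ∈ R, (univ.filter (fun x => x ∈ TT ∧ e x = v)).card) * z :=
          Nat.mul_le_mul_right _ ((card_le_card h3).trans card_biUnion_le)
      _ = ∑ v ∈ R, (univ.filter (fun x => x ∈ TT ∧ e x = v)).card * z := by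
          rw [Finset.sum_mul]
      _ ≤ ∑ _v ∈ R, l := Finset.sum_le_sum h4
      _ = R.card * l := by rw [Finset.sum_const, smul_eq_mul]
  have h3 : av (fun x : Fin m => ind (x ∈ TT ∧ e x ∈ R)) =
      ((univ.filter (fun x => x ∈ TT ∧ e x ∈ R)).card : ℝ) / m := by
    unfold av
    rw [Fintype.card_fin]
    congr 1
    rw [card_filter]
    push_cast
    apply Finset.sum_congr rfl
    intro x _
    split_ifs with h
    · exact ind_pos h
    · exact ind_neg h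
  rw [h3]
  have hz' : (0 : ℝ) < z := by exact_mod_cast hz
  have hm' : (0 : ℝ) < m := by exact_mod_cast hm
  rw [div_le_div_iff₀ hm' hz']
  exact_mod_cast h2.trans hn

theorem tuple_core {V1 V2 V3 : Type} [DecidableEq V1] [DecidableEq V2] [DecidableEq V3]
    (hm : 0 < m) {z : ℕ} (hz : 0 < z) (TT : Finset (Fin m)) (e1 : Fin m → V1)
    (e2 : Fin m → V2) (e3 : Fin m → V3)
    (h1 : ∀ b ∈ TT, (univ.filter (fun b' => e1 b' = e1 b)).card * z ≤ l1)
    (h2 : ∀ b ∈ TT, (univ.filter (fun b' => e2 b' = e2 b)).card * z ≤ l2)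
    (h3 : ∀ b ∈ TT, (univ.filter (fun b' => e3 b' = e3 b)).card * z ≤ l2)
    (R : Finset V3) (hR : R.card * l2 ≤ 3 * m) :
    ((TT.card : ℝ) / m) ^ (3 * q) - (9 * (q : ℝ) ^ 2 + 9 * q) / z ≤
      av (fun p : (Fin m × (Fin 3 → Fin m)) × (Fin 3 × Fin q → Fin m) => ind (
          (∀ c, tuple_L hl1 hl2 hd hd2 p c ∈ TT) ∧
          (∀ j l l', l ≠ l' → e1 (tuple_L hl1 hl2 hd hd2 p (j, l)) ≠
            e1 (tuple_L hl1 hl2 hd hd2 p (j, l'))) ∧
          (∀ j j' l l', j ≠ j' → e2 (tuple_L hl1 hl2 hd hd2 p (j, l)) ≠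
            e2 (tuple_L hl1 hl2 hd hd2 p (j', l'))) ∧
          ∀ c, e3 (tuple_L hl1 hl2 hd hd2 p c) ∉ R)) := by
  have hz' : (0 : ℝ) < z := by exact_mod_cast hz
  -- the failures
  obtain ⟨BA, hBA⟩ : ∃ BA : (Fin 3 × Fin q) → (Fin 3 × Fin q) →
      ((Fin m × (Fin 3 → Fin m)) × (Fin 3 × Fin q → Fin m)) → ℝ, BA = fun c c' p =>
        if c.1 = c'.1 then
          (if c = c' then 0 else ind (tuple_L hl1 hl2 hd hd2 p c ∈ TT ∧
            e1 (tuple_L hl1 hl2 hd hd2 p c') = e1 (tuple_L hl1 hl2 hd hd2 p c)))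
        else ind (tuple_L hl1 hl2 hd hd2 p c ∈ TT ∧
            e2 (tuple_L hl1 hl2 hd hd2 p c') = e2 (tuple_L hl1 hl2 hd hd2 p c)) := ⟨_, rfl⟩
  have hBA0 : ∀ c c' p, 0 ≤ BA c c' p := by
    intro c c' p
    rw [hBA]
    beta_reduce
    split_ifs
    · exact le_rfl
    · exact ind_nonneg _
    · exact ind_nonneg _
  have hBAz : ∀ c c', av (BA c c') ≤ 1 / (z : ℝ) := by
    intro c c'
    rw [hBA]
    beta_reduce
    by_cases hcc : c.1 = c'.1
    · by_cases hc : c = c'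
      · simp only [hcc, hc, if_true]
        unfold av
        simp only [Finset.sum_const_zero, zero_div]
        positivity
      · simp only [hcc, hc, if_true, if_false]
        exact tuple_A hl1 hl2 hd hd2 hm hz TT e1 h1 hc hcc
    · simp only [hcc, if_false]
      exact tuple_B hl1 hl2 hd hd2 hm hz TT e2 h2 hcc
  obtain ⟨BC, hBC⟩ : ∃ BC : (Fin 3 × Fin q) →
      ((Fin m × (Fin 3 → Fin m)) × (Fin 3 × Fin q → Fin m)) → ℝ, BC = fun c p =>
        ind (tuple_L hl1 hl2 hd hd2 p c ∈ TT ∧ e3 (tuple_L hl1 hl2 hd hd2 p c) ∈ R) := ⟨_, rfl⟩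
  have hBC0 : ∀ c p, 0 ≤ BC c p := by
    intro c p
    rw [hBC]
    exact ind_nonneg _
  have hBCz : ∀ c, av (BC c) ≤ 3 / (z : ℝ) := by
    intro c
    rw [hBC]
    have := tuple_C hl1 hl2 hd hd2 hm hz TT e3 R h3 hR c
    exact_mod_cast this
  have key : ∀ p : (Fin m × (Fin 3 → Fin m)) × (Fin 3 × Fin q → Fin m),
      ind (∀ c, tuple_L hl1 hl2 hd hd2 p c ∈ TT) + (-1) * ((∑ c, ∑ c', BA c c' p) + ∑ c, BC c p) ≤
      ind (
          (∀ c, tuple_L hl1 hl2 hd hd2 p c ∈ TT) ∧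
          (∀ j l l', l ≠ l' → e1 (tuple_L hl1 hl2 hd hd2 p (j, l)) ≠
            e1 (tuple_L hl1 hl2 hd hd2 p (j, l'))) ∧
          (∀ j j' l l', j ≠ j' → e2 (tuple_L hl1 hl2 hd hd2 p (j, l)) ≠
            e2 (tuple_L hl1 hl2 hd hd2 p (j', l'))) ∧
          ∀ c, e3 (tuple_L hl1 hl2 hd hd2 p c) ∉ R) := by
    intro p
    have hs1 : 0 ≤ ∑ c, ∑ c', BA c c' p :=
      Finset.sum_nonneg (fun c _ => Finset.sum_nonneg (fun c' _ => hBA0 c c' p))
    have hs2 : 0 ≤ ∑ c, BC c p := Finset.sum_nonneg (fun c _ => hBC0 c p)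
    have hge : ∀ c c', BA c c' p ≤ ∑ c, ∑ c', BA c c' p := by
      intro c c'
      refine le_trans ?_ (Finset.single_le_sum (f := fun c => ∑ c', BA c c' p)
        (fun c _ => Finset.sum_nonneg (fun c' _ => hBA0 c c' p)) (mem_univ c))
      exact Finset.single_le_sum (f := fun c' => BA c c' p) (fun c' _ => hBA0 c c' p) (mem_univ c')
    have hge2 : ∀ c, BC c p ≤ ∑ c, BC c p := by
      intro c
      exact Finset.single_le_sum (f := fun c => BC c p) (fun c _ => hBC0 c p) (mem_univ c)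
    by_cases hall : ∀ c, tuple_L hl1 hl2 hd hd2 p c ∈ TT
    · rw [ind_pos hall]
      by_cases hgood : ((∀ c, tuple_L hl1 hl2 hd hd2 p c ∈ TT) ∧
          (∀ j l l', l ≠ l' → e1 (tuple_L hl1 hl2 hd hd2 p (j, l)) ≠
            e1 (tuple_L hl1 hl2 hd hd2 p (j, l'))) ∧
          (∀ j j' l l', j ≠ j' → e2 (tuple_L hl1 hl2 hd hd2 p (j, l)) ≠
            e2 (tuple_L hl1 hl2 hd hd2 p (j', l'))) ∧
          ∀ c, e3 (tuple_L hl1 hl2 hd hd2 p c) ∉ R)
      · rw [ind_pos hgood]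
        linarith
      · rw [ind_neg hgood]
        have hone : 1 ≤ (∑ c, ∑ c', BA c c' p) + ∑ c, BC c p := by
          by_contra hcon
          apply hgood
          refine ⟨hall, ?_, ?_, ?_⟩
          · intro j l l' hl he
            have hb : BA (j, l) (j, l') p = 1 := by
              rw [hBA]
              beta_reduce
              rw [if_pos rfl, if_neg (fun h => hl (Prod.mk.inj h).2)]
              exact ind_pos ⟨hall _, he.symm⟩
            have := hge (j, l) (j, l')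
            linarith
          · intro j j' l l' hj he
            have hb : BA (j, l) (j', l') p = 1 := by
              rw [hBA]
              beta_reduce
              rw [if_neg hj]
              exact ind_pos ⟨hall _, he.symm⟩
            have := hge (j, l) (j', l')
            linarith
          · intro c he
            have hb : BC c p = 1 := by
              rw [hBC]
              exact ind_pos ⟨hall _, he⟩
            have := hge2 c
            linarith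
        linarith
    · rw [ind_neg hall]
      refine le_trans ?_ (ind_nonneg _)
      linarith
  refine le_trans ?_ (av_mono key)
  rw [av_add, av_mul_left, av_add, av_sum, av_sum]
  have t1 : ∑ c, av (fun p => ∑ c', BA c c' p) ≤ 9 * (q : ℝ) ^ 2 * (1 / z) := by
    have : ∀ c ∈ (univ : Finset (Fin 3 × Fin q)), av (fun p => ∑ c', BA c c' p) ≤
        3 * (q : ℝ) * (1 / z) := by
      intro c _
      rw [av_sum]
      refine (Finset.sum_le_card_nsmul _ _ _ (fun c' _ => hBAz c c')).trans (le_of_eq ?_)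
      rw [nsmul_eq_mul, Finset.card_univ, Fintype.card_prod, Fintype.card_fin, Fintype.card_fin]
      push_cast
      ring
    refine (Finset.sum_le_card_nsmul _ _ _ this).trans (le_of_eq ?_)
    rw [nsmul_eq_mul, Finset.card_univ, Fintype.card_prod, Fintype.card_fin, Fintype.card_fin]
    push_cast
    ring
  have t2 : ∑ c, av (BC c) ≤ 9 * (q : ℝ) * (1 / z) := by
    refine (Finset.sum_le_card_nsmul _ _ _ (fun c _ => hBCz c)).trans (le_of_eq ?_)
    rw [nsmul_eq_mul, Finset.card_univ, Fintype.card_prod, Fintype.card_fin, Fintype.card_fin]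
    push_cast
    ring
  have t3 : ((TT.card : ℝ) / m) ^ (3 * q) ≤
      av (fun p : (Fin m × (Fin 3 → Fin m)) × (Fin 3 × Fin q → Fin m) =>
        ind (∀ c, tuple_L hl1 hl2 hd hd2 p c ∈ TT)) := by
    refine le_trans (le_of_eq ?_) (tuple_all hl1 hl2 hd hd2 hm (fun x => x ∈ TT))
    congr 1
    unfold av
    rw [Fintype.card_fin]
    congr 1
    rw [← Finset.sum_filter_add_sum_filter_not univ (fun x => x ∈ TT)]
    rw [Finset.sum_congr rfl (fun x hx => ind_pos (mem_filter.mp hx).2),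
      Finset.sum_congr rfl (fun x hx => ind_neg (mem_filter.mp hx).2)]
    simp
  have t4 : (9 * (q : ℝ) ^ 2 + 9 * q) / z = 9 * (q : ℝ) ^ 2 * (1 / z) + 9 * (q : ℝ) * (1 / z) := by
    ring
  rw [t4]
  linarith

end

theorem tuple {V1 V2 V3 : Type} [DecidableEq V1] [DecidableEq V2] [DecidableEq V3]
    {z q D τ : ℕ} (hz : 2 ≤ z) {s1 s2 : ℕ} (h12 : s1 ≤ s2)
    (hs2 : s2 + τ + 1 ≤ D) (TT : Finset (Fin (z ^ D))) (e1 : Fin (z ^ D) → V1)
    (e2 : Fin (z ^ D) → V2) (e3 : Fin (z ^ D) → V3)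
    (h1 : ∀ b ∈ TT, (univ.filter (fun b' => e1 b' = e1 b)).card * z ≤ z ^ s1)
    (h2 : ∀ b ∈ TT, (univ.filter (fun b' => e2 b' = e2 b)).card * z ≤ z ^ s2)
    (h3 : ∀ b ∈ TT, (univ.filter (fun b' => e3 b' = e3 b)).card * z ≤ z ^ s2)
    (R : Finset V3) (hR : R.card ≤ 3 * z ^ (τ + 1)) :
    ((TT.card : ℝ) / (z : ℝ) ^ D) ^ (3 * q) / ((D : ℝ) + 1) ^ 2 -
        (9 * (q : ℝ) ^ 2 + 9 * q) / z ≤
      av (fun r : Rw z q D => ind (r.1.1.val = s1 ∧ r.1.2.val = s2 ∧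
        ∀ w : Fin 3 × Fin q → Fin (z ^ D), (∀ c, (w c).val = lfN r c) →
          (∀ c, w c ∈ TT) ∧ (∀ j l l', l ≠ l' → e1 (w (j, l)) ≠ e1 (w (j, l'))) ∧
          (∀ j j' l l', j ≠ j' → e2 (w (j, l)) ≠ e2 (w (j', l'))) ∧ ∀ c, e3 (w c) ∉ R)) := by
  have hz0 : 0 < z := by omega
  have hm : 0 < z ^ D := pow_pos hz0 _
  have : Nonempty (Fin (z ^ D)) := ⟨⟨0, hm⟩⟩
  have hl1 : 0 < z ^ s1 := pow_pos hz0 _
  have hl2 : 0 < z ^ s2 := pow_pos hz0 _
  have hd : z ^ s1 ∣ z ^ s2 := pow_dvd_pow _ h12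
  have hd2 : z ^ s2 ∣ z ^ D := pow_dvd_pow _ (by omega)
  have hR' : R.card * z ^ s2 ≤ 3 * z ^ D := by
    calc R.card * z ^ s2 ≤ 3 * z ^ (τ + 1) * z ^ s2 := Nat.mul_le_mul_right _ hR
      _ = 3 * z ^ (s2 + τ + 1) := by ring
      _ ≤ 3 * z ^ D := Nat.mul_le_mul_left _ (Nat.pow_le_pow_right hz0 hs2)
  have hcore := tuple_core (q := q) hl1 hl2 hd hd2 hm hz0 TT e1 e2 e3 h1 h2 h3 R hR'
  obtain ⟨G, hG⟩ : ∃ G : ((Fin (z ^ D) × (Fin 3 → Fin (z ^ D))) ×
      (Fin 3 × Fin q → Fin (z ^ D))) → Prop, G = fun p =>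
          (∀ c, tuple_L hl1 hl2 hd hd2 p c ∈ TT) ∧
          (∀ j l l', l ≠ l' → e1 (tuple_L hl1 hl2 hd hd2 p (j, l)) ≠
            e1 (tuple_L hl1 hl2 hd hd2 p (j, l'))) ∧
          (∀ j j' l l', j ≠ j' → e2 (tuple_L hl1 hl2 hd hd2 p (j, l)) ≠
            e2 (tuple_L hl1 hl2 hd hd2 p (j', l'))) ∧
          ∀ c, e3 (tuple_L hl1 hl2 hd hd2 p c) ∉ R := ⟨_, rfl⟩
  have hcore' : ((TT.card : ℝ) / (z : ℝ) ^ D) ^ (3 * q) - (9 * (q : ℝ) ^ 2 + 9 * q) / z ≤
      av (fun p => ind (G p)) := by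
    rw [hG]
    push_cast at hcore
    exact hcore
  have hle : ∀ r : Rw z q D, ind (r.1.1.val = s1) * ind (r.1.2.val = s2) * ind (G r.2) ≤
      ind (r.1.1.val = s1 ∧ r.1.2.val = s2 ∧
        ∀ w : Fin 3 × Fin q → Fin (z ^ D), (∀ c, (w c).val = lfN r c) →
          (∀ c, w c ∈ TT) ∧ (∀ j l l', l ≠ l' → e1 (w (j, l)) ≠ e1 (w (j, l'))) ∧
          (∀ j j' l l', j ≠ j' → e2 (w (j, l)) ≠ e2 (w (j', l'))) ∧ ∀ c, e3 (w c) ∉ R) := by
    intro r
    rw [← ind_and, ← ind_and]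
    apply ind_mono
    rintro ⟨⟨ha, hb⟩, hg⟩
    refine ⟨ha, hb, ?_⟩
    intro w hw
    have hwe : ∀ c, w c = tuple_L hl1 hl2 hd hd2 r.2 c := by
      intro c
      apply Fin.ext
      rw [hw c]
      unfold lfN
      rw [ha, hb]
      rfl
    have hwf : w = fun c => tuple_L hl1 hl2 hd hd2 r.2 c := funext hwe
    rw [hG] at hg
    rw [hwf]
    exact hg
  refine le_trans ?_ (av_mono hle)
  have e1' : av (fun r : Rw z q D => ind (r.1.1.val = s1) * ind (r.1.2.val = s2) * ind (G r.2)) =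
      (1 / ((D : ℝ) + 1)) ^ 2 * av (fun p => ind (G p)) := by
    rw [av_prod_mul (fun a : Fin (D + 1) × Fin (D + 1) => ind (a.1.val = s1) * ind (a.2.val = s2))
      (fun p => ind (G p)), av_prod_mul (fun a : Fin (D + 1) => ind (a.val = s1))
      (fun a : Fin (D + 1) => ind (a.val = s2)), av_ind_eq (by omega), av_ind_eq (by omega)]
    push_cast
    ring
  rw [e1']
  have hD1 : (0 : ℝ) < (D : ℝ) + 1 := by positivity
  have hq1 : (0 : ℝ) ≤ (9 * (q : ℝ) ^ 2 + 9 * q) / z := by positivity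
  have hk : (1 / ((D : ℝ) + 1)) ^ 2 ≤ 1 := by
    apply pow_le_one₀ (by positivity)
    rw [div_le_one hD1]
    have : (0 : ℝ) ≤ D := Nat.cast_nonneg _
    linarith
  have hk0 : 0 ≤ (1 / ((D : ℝ) + 1)) ^ 2 := by positivity
  calc ((TT.card : ℝ) / (z : ℝ) ^ D) ^ (3 * q) / ((D : ℝ) + 1) ^ 2 -
        (9 * (q : ℝ) ^ 2 + 9 * q) / z
      = (1 / ((D : ℝ) + 1)) ^ 2 * ((TT.card : ℝ) / (z : ℝ) ^ D) ^ (3 * q) -
        1 * ((9 * (q : ℝ) ^ 2 + 9 * q) / z) := by
        rw [one_div, inv_pow]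
        ring
    _ ≤ (1 / ((D : ℝ) + 1)) ^ 2 * ((TT.card : ℝ) / (z : ℝ) ^ D) ^ (3 * q) -
        (1 / ((D : ℝ) + 1)) ^ 2 * ((9 * (q : ℝ) ^ 2 + 9 * q) / z) := by
        have := mul_le_mul_of_nonneg_right hk hq1
        linarith
    _ = (1 / ((D : ℝ) + 1)) ^ 2 * (((TT.card : ℝ) / (z : ℝ) ^ D) ^ (3 * q) -
        (9 * (q : ℝ) ^ 2 + 9 * q) / z) := by ring
    _ ≤ _ := mul_le_mul_of_nonneg_left hcore' hk0

end Pool.Agent.H76.LX

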