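import Pool.Agent.H76.LX.CfD
import Pool.Agent.H76.LX.Tuple

/-! The tuple lemma for a profile. -/

namespace Pool.Agent.H76.LX

open Finset Pool.Agent.H46.SR Pool.Agent.H46.TS

namespace Par

variable (P : Par)

/-- equal coordinates of scale `k3` give equal column cells of scale `k2` -/
theorem tupleP_cf {P : Par} {ψ : Fin (P.z ^ P.D) → Fin P.N} {i : ℕ} (F : P.Prof ψ i) {β : ℕ}
    {b b' : Fin (P.z ^ P.D)} (h : cf F β b' = cf F β b) :
    (ψ b').val / P.U F.k2 = (ψ b).val / P.U F.k2 := by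
  have h1 : (ψ b').val / P.U F.k3 = (ψ b).val / P.U F.k3 := by
    have h2 := congrArg (fun c : P.Co => c.2.2.val) h
    simpa [cf, dv] using h2
  obtain ⟨m, hm⟩ := P.U_dvd F.h32
  rw [hm, ← Nat.div_div_eq_div_mul, ← Nat.div_div_eq_div_mul, h1]

theorem av_gd {ψ : Fin (P.z ^ P.D) → Fin P.N} {i : ℕ} (F : P.Prof ψ i) (β : ℕ)
    (S : Finset P.Co) (hS : S.card ≤ 3 * P.z ^ (P.τ + 1)) :
    cst P ≤ av (fun r : P.Rr => ind (Gd F r ∧ Disjoint (Cf F β r) S)) := by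
  have h3 : ∀ b ∈ F.TT, (univ.filter (fun b' => cf F β b' = cf F β b)).card * P.z ≤
      P.z ^ F.s2 := by
    intro b hb
    refine le_trans (Nat.mul_le_mul_right _ (card_le_card ?_)) (F.hJ2 b hb)
    intro b' hb'
    rw [mem_filter] at hb' ⊢
    exact ⟨hb'.1, tupleP_cf F hb'.2⟩
  have key := tuple (q := P.q) P.hz F.hs.le F.hsD F.TT (fun b => (ψ b).val / P.U F.k1)
    (fun b => (ψ b).val / P.U F.k2) (cf F β) F.hJ1 F.hJ2 h3 S hS
  have hz0 : (0 : ℝ) < (P.z : ℝ) ^ P.D := by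
    have := P.zpos
    positivity
  have hfrac : (1 : ℝ) / (2 * ((P.D : ℝ) + 1) ^ (P.La + 1)) ≤
      (F.TT.card : ℝ) / (P.z : ℝ) ^ P.D := by
    rw [div_le_div_iff₀ (by positivity) hz0, one_mul]
    exact_mod_cast F.hTT
  have hpow : ((1 : ℝ) / (2 * ((P.D : ℝ) + 1) ^ (P.La + 1))) ^ (3 * P.q) ≤
      ((F.TT.card : ℝ) / (P.z : ℝ) ^ P.D) ^ (3 * P.q) :=
    pow_le_pow_left₀ (by positivity) hfrac _
  have h4 : cst P ≤ ((F.TT.card : ℝ) / (P.z : ℝ) ^ P.D) ^ (3 * P.q) / ((P.D : ℝ) + 1) ^ 2 -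
      (9 * (P.q : ℝ) ^ 2 + 9 * P.q) / P.z := by
    unfold cst
    have := div_le_div_of_nonneg_right hpow (c := ((P.D : ℝ) + 1) ^ 2) (by positivity)
    linarith
  refine le_trans h4 (le_trans key (av_mono fun r => ind_mono ?_))
  rintro ⟨hs1, hs2, hw⟩
  obtain ⟨hT, hg1, hg3, hR⟩ := hw (P.lf r) (fun c => rfl)
  refine ⟨⟨hs1, hs2, hT, hg1, hg3⟩, ?_⟩
  rw [Finset.disjoint_left]
  intro a ha
  unfold Cf at ha
  rw [mem_image] at ha
  obtain ⟨j, -, rfl⟩ := ha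
  exact hR _

end Par

end Pool.Agent.H76.LX
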